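import Mathlib

/-!
# The Lagrangian of a cancellative family of triples
-/

set_option autoImplicit false
open Finset Filter Topology
open scoped Classical

namespace Pool.Agent.V11262.TD

variable {V : Type} [DecidableEq V]

/-- the indicator function of the triples of `G` -/
noncomputable def chi (G : Finset (Finset V)) (a b c : V) : ℝ :=
  if a ≠ b ∧ a ≠ c ∧ b ≠ c ∧ ({a, b, c} : Finset V) ∈ G then 1 else 0

theorem chi_nonneg (G : Finset (Finset V)) (a b c : V) : 0 ≤ chi G a b c := by
  unfold chi; split_ifs <;> norm_num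

theorem chi_le_one (G : Finset (Finset V)) (a b c : V) : chi G a b c ≤ 1 := by
  unfold chi; split_ifs <;> norm_num

theorem chi_swap (G : Finset (Finset V)) (a b c : V) : chi G a b c = chi G b a c := by
  unfold chi
  have h : ({a, b, c} : Finset V) = {b, a, c} := by
    ext x; simp only [mem_insert, mem_singleton]; tauto
  rw [h]
  congr 1
  apply propext
  constructor <;> rintro ⟨h1, h2, h3, h4⟩ <;> exact ⟨h1.symm, h3, h2, h4⟩

theorem chi_swap' (G : Finset (Finset V)) (a b c : V) : chi G a b c = chi G a c b := by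
  unfold chi
  have h : ({a, b, c} : Finset V) = {a, c, b} := by
    ext x; simp only [mem_insert, mem_singleton]; tauto
  rw [h]
  congr 1
  apply propext
  constructor <;> rintro ⟨h1, h2, h3, h4⟩ <;> exact ⟨h2, h1, h3.symm, h4⟩

theorem chi_self (G : Finset (Finset V)) (a b : V) : chi G a b b = 0 := by
  unfold chi; simp

variable [Fintype V]

/-- the trilinear form -/
noncomputable def tri (G : Finset (Finset V)) (u v w : V → ℝ) : ℝ :=
  ∑ a, ∑ b, ∑ c, chi G a b c * (u a * v b * w c)

theorem tri_swap (G : Finset (Finset V)) (u v w : V → ℝ) : tri G u v w = tri G v u w := by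
  unfold tri
  rw [sum_comm]
  refine sum_congr rfl fun a _ => sum_congr rfl fun b _ => sum_congr rfl fun c _ => ?_
  rw [chi_swap]
  ring

theorem tri_swap' (G : Finset (Finset V)) (u v w : V → ℝ) : tri G u v w = tri G u w v := by
  unfold tri
  refine sum_congr rfl fun a _ => ?_
  rw [sum_comm]
  refine sum_congr rfl fun b _ => sum_congr rfl fun c _ => ?_
  rw [chi_swap']
  ring

theorem tri_add (G : Finset (Finset V)) (u u' v w : V → ℝ) (t : ℝ) :
    tri G (u + t • u') v w = tri G u v w + t * tri G u' v w := by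
  unfold tri
  simp only [mul_sum, ← sum_add_distrib]
  refine sum_congr rfl fun a _ => sum_congr rfl fun b _ => sum_congr rfl fun c _ => ?_
  simp only [Pi.add_apply, Pi.smul_apply, smul_eq_mul]
  ring

theorem tri_add' (G : Finset (Finset V)) (u v v' w : V → ℝ) (t : ℝ) :
    tri G u (v + t • v') w = tri G u v w + t * tri G u v' w := by
  rw [tri_swap, tri_add, tri_swap G v, tri_swap G v']

theorem tri_add'' (G : Finset (Finset V)) (u v w w' : V → ℝ) (t : ℝ) :
    tri G u v (w + t • w') = tri G u v w + t * tri G u v w' := by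
  rw [tri_swap', tri_add', tri_swap' G u w, tri_swap' G u w']

theorem tri_expand (G : Finset (Finset V)) (w d : V → ℝ) (t : ℝ) :
    tri G (w + t • d) (w + t • d) (w + t • d) =
      tri G w w w + 3 * t * tri G w w d + 3 * t ^ 2 * tri G w d d + t ^ 3 * tri G d d d := by
  rw [tri_add, tri_add', tri_add', tri_add'', tri_add'', tri_add'', tri_add'']
  have h1 : tri G w d w = tri G w w d := tri_swap' G w d w
  have h2 : tri G d w w = tri G w w d := by rw [tri_swap, h1]
  have h3 : tri G d w d = tri G w d d := tri_swap G d w d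
  have h4 : tri G d d w = tri G w d d := by rw [tri_swap', h3]
  rw [h1, h2, h3, h4]
  ring

/-- the unit vectors -/
noncomputable def e (x : V) : V → ℝ := Pi.single x 1

theorem tri_e (G : Finset (Finset V)) (u v : V → ℝ) (x : V) :
    tri G u v (e x) = ∑ a, ∑ b, chi G a b x * (u a * v b) := by
  unfold tri e
  refine sum_congr rfl fun a _ => sum_congr rfl fun b _ => ?_
  rw [sum_eq_single x]
  · simp
  · intro c _ hc
    simp [Pi.single_eq_of_ne hc]
  · intro h; exact absurd (mem_univ x) h

theorem tri_ee (G : Finset (Finset V)) (u : V → ℝ) (x y : V) :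
    tri G u (e x) (e y) = ∑ a, chi G a x y * u a := by
  rw [tri_e]
  refine sum_congr rfl fun a _ => ?_
  unfold e
  rw [sum_eq_single x]
  · simp
  · intro c _ hc
    simp [Pi.single_eq_of_ne hc]
  · intro h; exact absurd (mem_univ x) h

theorem tri_ee_self (G : Finset (Finset V)) (u : V → ℝ) (x : V) : tri G u (e x) (e x) = 0 := by
  rw [tri_ee]
  simp [chi_self]

/-- moving weight from `y` to `x` -/
theorem tri_shift (G : Finset (Finset V)) (w : V → ℝ) (x y : V) (t : ℝ) :
    tri G (w + t • (e x + (-1 : ℝ) • e y)) (w + t • (e x + (-1 : ℝ) • e y))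
        (w + t • (e x + (-1 : ℝ) • e y)) =
      tri G w w w + 3 * t * (tri G w w (e x) - tri G w w (e y)) -
        6 * t ^ 2 * tri G w (e x) (e y) := by
  rw [tri_expand]
  have h1 : tri G w w (e x + (-1 : ℝ) • e y) = tri G w w (e x) - tri G w w (e y) := by
    rw [tri_add'']; ring
  have h2 : ∀ u : V → ℝ, tri G u (e x + (-1 : ℝ) • e y) (e x + (-1 : ℝ) • e y) =
      -2 * tri G u (e x) (e y) := by
    intro u
    rw [tri_add', tri_add'', tri_add'', tri_ee_self, tri_ee_self, tri_swap' G u (e y)]
    ring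
  have h3 : tri G (e x + (-1 : ℝ) • e y) (e x) (e y) = 0 := by
    rw [tri_add]
    have h4 : tri G (e x) (e x) (e y) = 0 := by rw [tri_swap', tri_swap, tri_ee_self]
    have h5 : tri G (e y) (e x) (e y) = 0 := by rw [tri_swap, tri_ee_self]
    rw [h4, h5]; ring
  rw [h1, h2, h2, h3]
  ring

theorem tri_ee_nonneg (G : Finset (Finset V)) {u : V → ℝ} (hu : ∀ a, 0 ≤ u a) (x y : V) :
    0 ≤ tri G u (e x) (e y) := by
  rw [tri_ee]
  exact sum_nonneg fun a _ => mul_nonneg (chi_nonneg _ _ _ _) (hu a)

theorem shift_mem {w : V → ℝ} (hw : w ∈ stdSimplex ℝ V) {x y : V} (hxy : x ≠ y) {t : ℝ}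
    (ht : 0 ≤ t) (hty : t ≤ w y) : w + t • (e x + (-1 : ℝ) • e y) ∈ stdSimplex ℝ V := by
  refine ⟨fun a => ?_, ?_⟩
  · simp only [Pi.add_apply, Pi.smul_apply, smul_eq_mul, e]
    have h0 := hw.1 a
    by_cases hax : a = x
    · subst hax
      simp only [Pi.single_eq_same, Pi.single_eq_of_ne hxy]
      linarith
    · by_cases hay : a = y
      · subst hay
        simp only [Pi.single_eq_same, Pi.single_eq_of_ne hax]
        linarith
      · simp only [Pi.single_eq_of_ne hax, Pi.single_eq_of_ne hay]
        linarith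
  · simp only [Pi.add_apply, Pi.smul_apply, smul_eq_mul, e]
    rw [sum_add_distrib, hw.2, ← mul_sum, sum_add_distrib, ← mul_sum]
    simp

/-- the conditions of Kuhn and Tucker -/
theorem kkt (G : Finset (Finset V)) {w : V → ℝ} (hw : w ∈ stdSimplex ℝ V)
    (hmax : ∀ v ∈ stdSimplex ℝ V, tri G v v v ≤ tri G w w w) {x y : V} (hy : 0 < w y) :
    tri G w w (e x) ≤ tri G w w (e y) := by
  by_cases hxy : x = y
  · rw [hxy]
  by_contra hc
  push Not at hc
  set A := tri G w w (e x) - tri G w w (e y) with hA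
  have hA0 : 0 < A := by rw [hA]; linarith
  set B := tri G w (e x) (e y) with hB
  have hB0 : 0 ≤ B := tri_ee_nonneg G hw.1 x y
  set t := min (w y) (A / (4 * B + 4)) with ht
  have ht0 : 0 < t := by positivity
  have h := hmax _ (shift_mem hw hxy ht0.le (min_le_left _ _))
  rw [tri_shift, ← hA, ← hB] at h
  have h2 : t * (4 * B + 4) ≤ A := by
    have := min_le_right (w y) (A / (4 * B + 4))
    rw [← ht, le_div_iff₀ (by positivity)] at this
    exact this
  have h3 : 3 * t * A ≤ 6 * t ^ 2 * B := by linarith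
  have h4 : 3 * A ≤ 6 * t * B := by nlinarith
  nlinarith

/-- the support -/
noncomputable def supp (w : V → ℝ) : Finset V := univ.filter fun a => w a ≠ 0

/-- a maximum with minimal support -/
theorem exists_max [Nonempty V] (G : Finset (Finset V)) :
    ∃ w ∈ stdSimplex ℝ V, (∀ v ∈ stdSimplex ℝ V, tri G v v v ≤ tri G w w w) ∧
      ∀ x y, x ≠ y → w x ≠ 0 → w y ≠ 0 → 0 < tri G w (e x) (e y) := by
  have hcont : Continuous fun w : V → ℝ => tri G w w w := by
    unfold tri
    fun_prop
  have hne : (stdSimplex ℝ V).Nonempty := by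
    obtain ⟨x⟩ := ‹Nonempty V›
    exact ⟨_, single_mem_stdSimplex ℝ x⟩
  obtain ⟨w0, hw0, hmax0⟩ := (isCompact_stdSimplex ℝ V).exists_isMaxOn hne hcont.continuousOn
  let P : ℕ → Prop := fun k => ∃ w ∈ stdSimplex ℝ V,
    (∀ v ∈ stdSimplex ℝ V, tri G v v v ≤ tri G w w w) ∧ (supp w).card = k
  have hP : ∃ k, P k := ⟨_, w0, hw0, fun v hv => hmax0 hv, rfl⟩
  obtain ⟨w, hw, hmax, hk⟩ := Nat.find_spec hP
  refine ⟨w, hw, hmax, fun x y hxy hx hy => ?_⟩
  have hx0 : 0 < w x := lt_of_le_of_ne (hw.1 x) (Ne.symm hx)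
  have hy0 : 0 < w y := lt_of_le_of_ne (hw.1 y) (Ne.symm hy)
  by_contra hc
  have h0 : tri G w (e x) (e y) = 0 :=
    le_antisymm (not_lt.mp hc) (tri_ee_nonneg G hw.1 x y)
  have hA : tri G w w (e x) = tri G w w (e y) :=
    le_antisymm (kkt G hw hmax hy0) (kkt G hw hmax hx0)
  have h1 := tri_shift G w x y (w y)
  rw [h0, hA] at h1
  have h2 : P (supp (w + w y • (e x + (-1 : ℝ) • e y))).card := by
    refine ⟨_, shift_mem hw hxy hy0.le le_rfl, fun v hv => ?_, rfl⟩
    rw [h1]
    have := hmax v hv
    linarith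
  have h3 := Nat.find_min' hP h2
  rw [← hk] at h3
  have h4 : supp (w + w y • (e x + (-1 : ℝ) • e y)) ⊂ supp w := by
    rw [ssubset_iff_of_subset]
    · refine ⟨y, mem_filter.mpr ⟨mem_univ _, hy⟩, fun h => ?_⟩
      have h5 := (mem_filter.mp h).2
      apply h5
      simp only [Pi.add_apply, Pi.smul_apply, smul_eq_mul, e, Pi.single_eq_same,
        Pi.single_eq_of_ne (Ne.symm hxy)]
      ring
    · intro a ha
      have h5 := (mem_filter.mp ha).2
      refine mem_filter.mpr ⟨mem_univ _, fun h6 => h5 ?_⟩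
      have hax : a ≠ x := fun h => hx (h ▸ h6)
      have hay : a ≠ y := fun h => hy (h ▸ h6)
      simp only [Pi.add_apply, Pi.smul_apply, smul_eq_mul, e, Pi.single_eq_of_ne hax,
        Pi.single_eq_of_ne hay, h6]
      ring
  exact absurd (card_lt_card h4) (by omega)

/-- no three triples `xyz`, `x'yz`, `xx'u` -/
def Canc (G : Finset (Finset V)) : Prop :=
  ∀ x x' y z u : V, x ≠ x' → y ≠ z → ({x, y, z} : Finset V) ∈ G → ({x', y, z} : Finset V) ∈ G →
    ({x, x', u} : Finset V) ∉ G

theorem tri_self_eq (G : Finset (Finset V)) (w : V → ℝ) :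
    tri G w w w = ∑ x, w x * tri G w w (e x) := by
  have h : ∀ x, w x * tri G w w (e x) = ∑ a, ∑ b, chi G x a b * (w x * w a * w b) := by
    intro x
    rw [tri_e, mul_sum]
    refine sum_congr rfl fun a _ => ?_
    rw [mul_sum]
    refine sum_congr rfl fun b _ => ?_
    rw [chi_swap G x a b, chi_swap' G a x b]
    ring
  rw [sum_congr rfl fun x _ => h x]
  rfl

/-- **the Lagrangian of a cancellative family of triples** -/
theorem lagr [Nonempty V] {G : Finset (Finset V)} (hG : Canc G) {v : V → ℝ}
    (hv : v ∈ stdSimplex ℝ V) : tri G v v v ≤ 2 / 9 := by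
  obtain ⟨w, hw, hmax, hcov⟩ := exists_max G
  refine (hmax v hv).trans ?_
  set lam := tri G w w w with hlam
  -- the partial derivatives
  have hex : ∃ y, w y ≠ 0 := by
    by_contra hc
    push Not at hc
    have := hw.2
    simp [hc] at this
  obtain ⟨y0, hy0⟩ := hex
  have hpos : ∀ y, w y ≠ 0 → 0 < w y := fun y hy => lt_of_le_of_ne (hw.1 y) (Ne.symm hy)
  have heq : ∀ x, w x ≠ 0 → tri G w w (e x) = tri G w w (e y0) := fun x hx =>
    le_antisymm (kkt G hw hmax (hpos y0 hy0)) (kkt G hw hmax (hpos x hx))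
  have hl : lam = tri G w w (e y0) := by
    rw [hlam, tri_self_eq]
    have h1 : ∀ x, w x * tri G w w (e x) = w x * tri G w w (e y0) := by
      intro x
      by_cases hx : w x = 0
      · rw [hx]; ring
      · rw [heq x hx]
    rw [sum_congr rfl fun x _ => h1 x, ← sum_mul, hw.2, one_mul]
  set S := supp w with hS
  have hSm : ∀ a, a ∈ S ↔ w a ≠ 0 := fun a => by rw [hS]; simp [supp]
  have hsum : ((S.card : ℕ) : ℝ) * lam = ∑ x ∈ S, tri G w w (e x) := by
    rw [sum_congr rfl fun x hx => heq x ((hSm x).mp hx), sum_const, nsmul_eq_mul, hl]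
  -- every pair is in at most one triple
  have hone : ∀ a b, w a ≠ 0 → w b ≠ 0 → ∑ x ∈ S, chi G a b x ≤ if a = b then 0 else 1 := by
    intro a b ha hb
    by_cases hab : a = b
    · rw [if_pos hab, hab]
      apply le_of_eq
      apply sum_eq_zero
      intro x _
      rw [chi_swap', chi_swap, chi_self]
    rw [if_neg hab]
    by_cases h : ∃ x ∈ S, chi G a b x ≠ 0
    · obtain ⟨x, hx, hxc⟩ := h
      rw [sum_eq_single x]
      · exact chi_le_one _ _ _ _
      · intro x' hx' hne
        by_contra hc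
        -- `x` and `x'` are covered
        have h1 := hcov x x' (Ne.symm hne) ((hSm x).mp hx) ((hSm x').mp hx')
        rw [tri_ee] at h1
        have h2 : ∃ u ∈ (univ : Finset V), 0 < chi G u x x' * w u := by
          by_contra h2
          push Not at h2
          exact absurd h1 (not_lt.mpr (sum_nonpos h2))
        obtain ⟨u, -, hu⟩ := h2
        have hu1 : chi G u x x' ≠ 0 := fun h => by rw [h] at hu; simp at hu
        unfold chi at hxc hc hu1
        have a1 : a ≠ b ∧ a ≠ x ∧ b ≠ x ∧ ({a, b, x} : Finset V) ∈ G := by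
          by_contra h; rw [if_neg h] at hxc; exact hxc rfl
        have a2 : a ≠ b ∧ a ≠ x' ∧ b ≠ x' ∧ ({a, b, x'} : Finset V) ∈ G := by
          by_contra h; rw [if_neg h] at hc; exact hc rfl
        have a3 : u ≠ x ∧ u ≠ x' ∧ x ≠ x' ∧ ({u, x, x'} : Finset V) ∈ G := by
          by_contra h; rw [if_neg h] at hu1; exact hu1 rfl
        have b1 : ({x, a, b} : Finset V) = {a, b, x} := by
          ext z; simp only [mem_insert, mem_singleton]; tauto
        have b2 : ({x', a, b} : Finset V) = {a, b, x'} := by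
          ext z; simp only [mem_insert, mem_singleton]; tauto
        have b3 : ({x, x', u} : Finset V) = {u, x, x'} := by
          ext z; simp only [mem_insert, mem_singleton]; tauto
        exact hG x x' a b u (Ne.symm hne) hab (b1 ▸ a1.2.2.2) (b2 ▸ a2.2.2.2)
          (b3 ▸ a3.2.2.2)
      · intro h; exact absurd hx h
    · push Not at h
      rw [sum_eq_zero h]
      exact zero_le_one
  have hup : ∑ x ∈ S, tri G w w (e x) ≤ 1 - ∑ a, w a ^ 2 := by
    calc ∑ x ∈ S, tri G w w (e x)
        = ∑ a, ∑ b, (∑ x ∈ S, chi G a b x) * (w a * w b) := by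
          rw [sum_congr rfl fun x _ => tri_e G w w x, sum_comm]
          refine sum_congr rfl fun a _ => ?_
          rw [sum_comm]
          refine sum_congr rfl fun b _ => ?_
          rw [sum_mul]
      _ ≤ ∑ a, ∑ b, (if a = b then 0 else 1) * (w a * w b) := by
          refine sum_le_sum fun a _ => sum_le_sum fun b _ => ?_
          by_cases ha : w a = 0
          · rw [ha]; simp
          by_cases hb : w b = 0
          · rw [hb]; simp
          exact mul_le_mul_of_nonneg_right (hone a b ha hb)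
            (mul_nonneg (hw.1 a) (hw.1 b))
      _ = ∑ a, ∑ b, (w a * w b - if a = b then w a * w b else 0) := by
          refine sum_congr rfl fun a _ => sum_congr rfl fun b _ => ?_
          split_ifs <;> ring
      _ = (∑ a, w a) * (∑ b, w b) - ∑ a, w a ^ 2 := by
          simp only [sum_sub_distrib, sum_ite_eq, mem_univ, if_true]
          rw [sum_mul_sum]
          simp only [pow_two]
      _ = _ := by rw [hw.2]; ring
  have hcs : 1 ≤ (S.card : ℝ) * ∑ a, w a ^ 2 := by
    have h1 := sq_sum_le_card_mul_sum_sq (s := S) (f := w)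
    have h2 : ∑ a ∈ S, w a = 1 := by
      rw [← hw.2]
      apply sum_subset (subset_univ _)
      intro a _ ha
      by_contra h
      exact ha ((hSm a).mpr h)
    have h3 : ∑ a ∈ S, w a ^ 2 ≤ ∑ a, w a ^ 2 :=
      sum_le_sum_of_subset_of_nonneg (subset_univ _) fun a _ _ => sq_nonneg _
    rw [h2] at h1
    calc (1 : ℝ) = 1 ^ 2 := by norm_num
      _ ≤ S.card * ∑ a ∈ S, w a ^ 2 := h1
      _ ≤ _ := mul_le_mul_of_nonneg_left h3 (by positivity)
  rcases Nat.lt_or_ge S.card 3 with h3 | h3
  · -- at most two vertices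
    have h0 : lam = 0 := by
      rw [hlam]
      unfold tri
      refine sum_eq_zero fun a _ => sum_eq_zero fun b _ => sum_eq_zero fun c _ => ?_
      by_contra hne
      have n1 : chi G a b c ≠ 0 := left_ne_zero_of_mul hne
      have n2 : w a * w b * w c ≠ 0 := right_ne_zero_of_mul hne
      have n3 : w c ≠ 0 := right_ne_zero_of_mul n2
      have n4 : w a * w b ≠ 0 := left_ne_zero_of_mul n2
      have n5 : w a ≠ 0 := left_ne_zero_of_mul n4
      have n6 : w b ≠ 0 := right_ne_zero_of_mul n4
      unfold chi at n1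
      have a1 : a ≠ b ∧ a ≠ c ∧ b ≠ c ∧ ({a, b, c} : Finset V) ∈ G := by
        by_contra h; rw [if_neg h] at n1; exact n1 rfl
      have h5 : ({a, b, c} : Finset V) ⊆ S := by
        intro z hz
        simp only [mem_insert, mem_singleton] at hz
        rcases hz with rfl | rfl | rfl
        · exact (hSm _).mpr n5
        · exact (hSm _).mpr n6
        · exact (hSm _).mpr n3
      have h6 := card_le_card h5
      rw [card_eq_three.mpr ⟨a, b, c, a1.1, a1.2.1, a1.2.2.1, rfl⟩] at h6
      omega
    rw [h0]; norm_num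
  · have h3' : (3 : ℝ) ≤ S.card := by exact_mod_cast h3
    set t : ℝ := (S.card : ℝ) with ht
    set q := ∑ a, w a ^ 2 with hq
    have h4 : t * lam ≤ 1 - q := by rw [hsum]; exact hup
    have h5 : t * (t * lam) ≤ t * (1 - q) := mul_le_mul_of_nonneg_left h4 (by linarith)
    have h6 : t ^ 2 * lam ≤ t - 1 := by nlinarith
    have h70 : 0 ≤ 2 * t - 3 := by linarith
    have h71 : 0 ≤ t - 3 := by linarith
    have h72 := mul_nonneg h70 h71
    have h7 : t - 1 ≤ t ^ 2 * (2 / 9) := by linarith
    have h8 : t ^ 2 * lam ≤ t ^ 2 * (2 / 9) := h6.trans h7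
    exact le_of_mul_le_mul_left h8 (by positivity)

end Pool.Agent.V11262.TD
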