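import Pool.Agent.V11262.TD.Gen
import Pool.Agent.V11262.TD.Canc

/-!
# `L(3, 5) = 2 / 9`
-/

set_option autoImplicit false
open Finset Filter Topology
open scoped Classical

namespace Pool.Agent.V11262.TD

theorem six_mul {V : Type} [Fintype V] [DecidableEq V] (G : Finset (Finset V)) (hG : ∀ U ∈ G, U.card = 3) :
    (6 * G.card : ℝ) ≤ ∑ a, ∑ b, ∑ c, chi G a b c := by
  set Q : Finset (V × V × V) := univ.filter fun q =>
    q.1 ≠ q.2.1 ∧ q.1 ≠ q.2.2 ∧ q.2.1 ≠ q.2.2 ∧ ({q.1, q.2.1, q.2.2} : Finset V) ∈ G with hQ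
  have h1 : (Q.card : ℝ) = ∑ a, ∑ b, ∑ c, chi G a b c := by
    rw [hQ, card_filter]
    push_cast
    rw [Fintype.sum_prod_type]
    refine sum_congr rfl fun a _ => ?_
    rw [Fintype.sum_prod_type]
    rfl
  rw [← h1]
  have h2 : Q.card = ∑ U ∈ G, (Q.filter fun q => ({q.1, q.2.1, q.2.2} : Finset V) = U).card := by
    apply card_eq_sum_card_fiberwise
    intro q hq
    exact (mem_filter.mp hq).2.2.2.2
  have h3 : ∀ U ∈ G, 6 ≤ (Q.filter fun q => ({q.1, q.2.1, q.2.2} : Finset V) = U).card := by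
    intro U hU
    obtain ⟨x, y, z, hxy, hxz, hyz, rfl⟩ := card_eq_three.mp (hG U hU)
    have h4 : ({(x, y, z), (x, z, y), (y, x, z), (y, z, x), (z, x, y), (z, y, x)} :
        Finset (V × V × V)).card = 6 := by
      rw [card_insert_of_notMem, card_insert_of_notMem, card_insert_of_notMem,
        card_insert_of_notMem, card_insert_of_notMem, card_singleton] <;>
      simp [hxy, hxz, hyz, Ne.symm hxy, Ne.symm hxz, Ne.symm hyz]
    rw [← h4]
    apply card_le_card
    intro q hq
    have e1 : ({x, z, y} : Finset V) = {x, y, z} := by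
      ext w; simp only [mem_insert, mem_singleton]; tauto
    have e2 : ({y, x, z} : Finset V) = {x, y, z} := by
      ext w; simp only [mem_insert, mem_singleton]; tauto
    have e3 : ({y, z, x} : Finset V) = {x, y, z} := by
      ext w; simp only [mem_insert, mem_singleton]; tauto
    have e4 : ({z, x, y} : Finset V) = {x, y, z} := by
      ext w; simp only [mem_insert, mem_singleton]; tauto
    have e5 : ({z, y, x} : Finset V) = {x, y, z} := by
      ext w; simp only [mem_insert, mem_singleton]; tauto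
    simp only [mem_insert, mem_singleton] at hq
    rw [mem_filter, hQ, mem_filter]
    rcases hq with rfl | rfl | rfl | rfl | rfl | rfl
    · exact ⟨⟨mem_univ _, hxy, hxz, hyz, hU⟩, rfl⟩
    · exact ⟨⟨mem_univ _, hxz, hxy, hyz.symm, by simpa only [e1] using hU⟩, e1⟩
    · exact ⟨⟨mem_univ _, hxy.symm, hyz, hxz, by simpa only [e2] using hU⟩, e2⟩
    · exact ⟨⟨mem_univ _, hyz, hxy.symm, hxz.symm, by simpa only [e3] using hU⟩, e3⟩
    · exact ⟨⟨mem_univ _, hxz.symm, hyz.symm, hxy, by simpa only [e4] using hU⟩, e4⟩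
    · exact ⟨⟨mem_univ _, hyz.symm, hxz.symm, hxy.symm, by simpa only [e5] using hU⟩, e5⟩
  have h5 : 6 * G.card ≤ Q.card := by
    rw [h2]
    calc 6 * G.card = ∑ U ∈ G, 6 := by rw [sum_const, smul_eq_mul, mul_comm]
      _ ≤ _ := sum_le_sum h3
  exact_mod_cast h5

/-- a cancellative family of triples inside a set of `m` elements has at most `m³ / 27` members -/
theorem canc_card {V : Type} [Fintype V] [DecidableEq V] {G : Finset (Finset V)} (hG : ∀ U ∈ G, U.card = 3)
    (hc : Canc G) (M : Finset V) (hM : ∀ U ∈ G, U ⊆ M) (hne : M.Nonempty) :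
    (G.card : ℝ) ≤ (M.card : ℝ) ^ 3 / 27 := by
  have : Nonempty V := ⟨hne.choose⟩
  have hm : (0:ℝ) < M.card := by exact_mod_cast card_pos.mpr hne
  set w : V → ℝ := fun a => if a ∈ M then 1 / (M.card : ℝ) else 0 with hw
  have hws : w ∈ stdSimplex ℝ V := by
    refine ⟨fun a => ?_, ?_⟩
    · simp only [hw]; split_ifs <;> positivity
    · simp only [hw]
      rw [sum_ite_mem, univ_inter, sum_const, nsmul_eq_mul]
      field_simp
  have h1 := lagr hc hws
  have h2 : tri G w w w = (1 / (M.card : ℝ)) ^ 3 * ∑ a, ∑ b, ∑ c, chi G a b c := by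
    unfold tri
    simp only [mul_sum]
    refine sum_congr rfl fun a _ => sum_congr rfl fun b _ => sum_congr rfl fun c _ => ?_
    by_cases h : chi G a b c = 0
    · rw [h]; ring
    · have h3 : a ≠ b ∧ a ≠ c ∧ b ≠ c ∧ ({a, b, c} : Finset V) ∈ G := by
        by_contra h4; unfold chi at h; rw [if_neg h4] at h; exact h rfl
      have h4 := hM _ h3.2.2.2
      have ha : a ∈ M := h4 (by simp)
      have hb : b ∈ M := h4 (by simp)
      have hc : c ∈ M := h4 (by simp)
      simp only [hw, ha, hb, hc, if_true]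
      ring
  rw [h2] at h1
  have h3 := six_mul G hG
  have h4 : (1 / (M.card : ℝ)) ^ 3 * (6 * G.card) ≤ 2 / 9 :=
    (mul_le_mul_of_nonneg_left h3 (by positivity)).trans h1
  have h5 : (1 / (M.card : ℝ)) ^ 3 * (6 * G.card) = 6 * G.card / (M.card : ℝ) ^ 3 := by
    field_simp
  rw [h5, div_le_iff₀ (by positivity)] at h4
  linarith

variable {n : ℕ}

theorem sys_of_five {G : Finset (Finset (Fin n))} {x x' y z u : Fin n}
    (hK : ({x, x', y, z, u} : Finset (Fin n)).card = 5)
    (h1 : ({x, y, z} : Finset (Fin n)) ∈ G) (h2 : ({x', y, z} : Finset (Fin n)) ∈ G)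
    (h3 : ({x, x', u} : Finset (Fin n)) ∈ G) :
    Sys 3 G {x, x', y, z, u} := by
  intro T hT hTc
  obtain ⟨v, hvK, hvT⟩ : ∃ v ∈ ({x, x', y, z, u} : Finset (Fin n)), v ∉ T := by
    by_contra hc
    push Not at hc
    have := card_le_card (fun v hv => hc v hv : ({x, x', y, z, u} : Finset (Fin n)) ⊆ T)
    omega
  have hTe : T = ({x, x', y, z, u} : Finset (Fin n)).erase v := by
    apply eq_of_subset_of_card_le
    · exact subset_erase.mpr ⟨hT, hvT⟩
    · rw [card_erase_of_mem hvK, hK, hTc]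
  -- all the five points are distinct
  have hd : x ≠ x' ∧ x ≠ y ∧ x ≠ z ∧ x ≠ u ∧ x' ≠ y ∧ x' ≠ z ∧ x' ≠ u ∧ y ≠ z ∧ y ≠ u ∧ z ≠ u := by
    have hle : ∀ a b c d : Fin n, ({a, b, c, d} : Finset (Fin n)).card ≤ 4 := fun a b c d =>
      card_le_four
    refine ⟨?_, ?_, ?_, ?_, ?_, ?_, ?_, ?_, ?_, ?_⟩ <;> rintro rfl <;> apply absurd hK
    · have := hle x y z u
      rw [show ({x, x, y, z, u} : Finset (Fin n)) = {x, y, z, u} by
        ext w; simp only [mem_insert, mem_singleton]; tauto]
      omega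
    · have := hle x x' z u
      rw [show ({x, x', x, z, u} : Finset (Fin n)) = {x, x', z, u} by
        ext w; simp only [mem_insert, mem_singleton]; tauto]
      omega
    · have := hle x x' y u
      rw [show ({x, x', y, x, u} : Finset (Fin n)) = {x, x', y, u} by
        ext w; simp only [mem_insert, mem_singleton]; tauto]
      omega
    · have := hle x x' y z
      rw [show ({x, x', y, z, x} : Finset (Fin n)) = {x, x', y, z} by
        ext w; simp only [mem_insert, mem_singleton]; tauto]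
      omega
    · have := hle x x' z u
      rw [show ({x, x', x', z, u} : Finset (Fin n)) = {x, x', z, u} by
        ext w; simp only [mem_insert, mem_singleton]; tauto]
      omega
    · have := hle x x' y u
      rw [show ({x, x', y, x', u} : Finset (Fin n)) = {x, x', y, u} by
        ext w; simp only [mem_insert, mem_singleton]; tauto]
      omega
    · have := hle x x' y z
      rw [show ({x, x', y, z, x'} : Finset (Fin n)) = {x, x', y, z} by
        ext w; simp only [mem_insert, mem_singleton]; tauto]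
      omega
    · have := hle x x' y u
      rw [show ({x, x', y, y, u} : Finset (Fin n)) = {x, x', y, u} by
        ext w; simp only [mem_insert, mem_singleton]; tauto]
      omega
    · have := hle x x' y z
      rw [show ({x, x', y, z, y} : Finset (Fin n)) = {x, x', y, z} by
        ext w; simp only [mem_insert, mem_singleton]; tauto]
      omega
    · have := hle x x' y z
      rw [show ({x, x', y, z, z} : Finset (Fin n)) = {x, x', y, z} by
        ext w; simp only [mem_insert, mem_singleton]; tauto]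
      omega
  obtain ⟨d1, d2, d3, d4, d5, d6, d7, d8, d9, d10⟩ := hd
  simp only [mem_insert, mem_singleton] at hvK
  rcases hvK with rfl | rfl | rfl | rfl | rfl
  · refine ⟨_, h2, ?_⟩
    rw [hTe]
    intro w hw
    simp only [mem_insert, mem_singleton] at hw
    simp only [mem_erase, mem_insert, mem_singleton]
    rcases hw with rfl | rfl | rfl
    · exact ⟨d1.symm, by tauto⟩
    · exact ⟨d2.symm, by tauto⟩
    · exact ⟨d3.symm, by tauto⟩
  · refine ⟨_, h1, ?_⟩
    rw [hTe]
    intro w hw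
    simp only [mem_insert, mem_singleton] at hw
    simp only [mem_erase, mem_insert, mem_singleton]
    rcases hw with rfl | rfl | rfl
    · exact ⟨d1, by tauto⟩
    · exact ⟨d5.symm, by tauto⟩
    · exact ⟨d6.symm, by tauto⟩
  · refine ⟨_, h3, ?_⟩
    rw [hTe]
    intro w hw
    simp only [mem_insert, mem_singleton] at hw
    simp only [mem_erase, mem_insert, mem_singleton]
    rcases hw with rfl | rfl | rfl
    · exact ⟨d2, by tauto⟩
    · exact ⟨d5, by tauto⟩
    · exact ⟨d9.symm, by tauto⟩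
  · refine ⟨_, h3, ?_⟩
    rw [hTe]
    intro w hw
    simp only [mem_insert, mem_singleton] at hw
    simp only [mem_erase, mem_insert, mem_singleton]
    rcases hw with rfl | rfl | rfl
    · exact ⟨d3, by tauto⟩
    · exact ⟨d6, by tauto⟩
    · exact ⟨d10.symm, by tauto⟩
  · refine ⟨_, h1, ?_⟩
    rw [hTe]
    intro w hw
    simp only [mem_insert, mem_singleton] at hw
    simp only [mem_erase, mem_insert, mem_singleton]
    rcases hw with rfl | rfl | rfl
    · exact ⟨d4, by tauto⟩
    · exact ⟨d9, by tauto⟩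
    · exact ⟨d10, by tauto⟩

/-- sets of four elements which contain three triples of `G` -/
noncomputable def Bad (G : Finset (Finset (Fin n))) : Finset (Finset (Fin n)) :=
  univ.filter fun K => K.card = 4 ∧ ∃ x x' y z : Fin n, K = {x, x', y, z} ∧
    ({x, y, z} : Finset (Fin n)) ∈ G ∧ ({x', y, z} : Finset (Fin n)) ∈ G ∧
      ({x, x', y} : Finset (Fin n)) ∈ G

theorem ne_of_three {a b c : Fin n} (h : ({a, b, c} : Finset (Fin n)).card = 3) :
    a ≠ b ∧ a ≠ c ∧ b ≠ c := by
  have hle : ∀ a b : Fin n, ({a, b} : Finset (Fin n)).card ≤ 2 := fun a b => card_le_two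
  refine ⟨?_, ?_, ?_⟩ <;> rintro rfl
  · have := hle a c; simp at h; omega
  · have := hle a b
    rw [show ({a, b, a} : Finset (Fin n)) = {a, b} by
      ext w; simp only [mem_insert, mem_singleton]; tauto] at h
    omega
  · have := hle a b
    rw [show ({a, b, b} : Finset (Fin n)) = {a, b} by
      ext w; simp only [mem_insert, mem_singleton]; tauto] at h
    omega

theorem no_five {G : Finset (Finset (Fin n))} (hG : SysFree 3 5 G) {x x' y z u : Fin n}
    (hxx : x ≠ x') (hyz : y ≠ z)
    (h1 : ({x, y, z} : Finset (Fin n)) ∈ G) (h2 : ({x', y, z} : Finset (Fin n)) ∈ G)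
    (h3 : ({x, x', u} : Finset (Fin n)) ∈ G) : u = y ∨ u = z := by
  by_contra hc
  push Not at hc
  obtain ⟨a1, a2, -⟩ := ne_of_three (hG.1 _ h1)
  obtain ⟨b1, b2, -⟩ := ne_of_three (hG.1 _ h2)
  obtain ⟨-, c1, c2⟩ := ne_of_three (hG.1 _ h3)
  have hK : ({x, x', y, z, u} : Finset (Fin n)).card = 5 := by
    rw [card_insert_of_notMem, card_insert_of_notMem, card_insert_of_notMem,
      card_insert_of_notMem, card_singleton]
    · simp [Ne.symm hc.2]
    · simp [hyz, Ne.symm hc.1]
    · simp [b1, b2, c2]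
    · simp [hxx, a1, a2, c1]
  exact hG.2 _ hK (sys_of_five hK h1 h2 h3)

theorem canc_of {G : Finset (Finset (Fin n))} (hG : SysFree 3 5 G) {M : Finset (Fin n)}
    (hM : ∀ K ∈ Bad G, ¬ K ⊆ M) : Canc (G.filter fun U => U ⊆ M) := by
  intro x x' y z u hxx hyz h1 h2 h3
  rw [mem_filter] at h1 h2 h3
  obtain ⟨a1, a2, -⟩ := ne_of_three (hG.1 _ h1.1)
  obtain ⟨b1, b2, -⟩ := ne_of_three (hG.1 _ h2.1)
  have hx : x ∈ M := h1.2 (by simp)
  have hy : y ∈ M := h1.2 (by simp)
  have hz : z ∈ M := h1.2 (by simp)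
  have hx' : x' ∈ M := h2.2 (by simp)
  rcases no_five hG hxx hyz h1.1 h2.1 h3.1 with rfl | rfl
  · refine hM {x, x', u, z} (mem_filter.mpr ⟨mem_univ _, ?_, x, x', u, z, rfl, h1.1, h2.1, h3.1⟩) ?_
    · rw [card_insert_of_notMem, card_insert_of_notMem, card_insert_of_notMem, card_singleton]
      · simp [hyz]
      · simp [b1, b2]
      · simp [hxx, a1, a2]
    · intro w hw
      simp only [mem_insert, mem_singleton] at hw
      rcases hw with rfl | rfl | rfl | rfl <;> assumption
  · have e1 : ({x, u, y} : Finset (Fin n)) = {x, y, u} := by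
      ext w; simp only [mem_insert, mem_singleton]; tauto
    have e2 : ({x', u, y} : Finset (Fin n)) = {x', y, u} := by
      ext w; simp only [mem_insert, mem_singleton]; tauto
    refine hM {x, x', u, y} (mem_filter.mpr ⟨mem_univ _, ?_, x, x', u, y, rfl, e1 ▸ h1.1,
      e2 ▸ h2.1, h3.1⟩) ?_
    · rw [card_insert_of_notMem, card_insert_of_notMem, card_insert_of_notMem, card_singleton]
      · simp [Ne.symm hyz]
      · simp [b1, b2]
      · simp [hxx, a1, a2]
    · intro w hw
      simp only [mem_insert, mem_singleton] at hw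
      rcases hw with rfl | rfl | rfl | rfl <;> assumption

/-- few bad sets -/
theorem bad_card {G : Finset (Finset (Fin n))} (hG : SysFree 3 5 G) :
    (Bad G).card ≤ 2 * n ^ 3 := by
  let N : Fin n → Fin n → Finset (Fin n) := fun x x' =>
    univ.filter fun u => ({x, x', u} : Finset (Fin n)) ∈ G
  have hcov : Bad G ⊆ (univ : Finset (Fin n × Fin n × Fin n)).biUnion fun q =>
      (if (N q.1 q.2.1).card ≤ 2 then N q.1 q.2.1 else ∅).image
        (fun y => ({q.1, q.2.1, y, q.2.2} : Finset (Fin n))) := by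
    intro K hK
    obtain ⟨-, hKc, x, x', y, z, rfl, h1, h2, h3⟩ := mem_filter.mp hK
    obtain ⟨hxx, a1, a2⟩ := ne_of_three (hG.1 _ h3)
    obtain ⟨-, -, hyz⟩ := ne_of_three (hG.1 _ h1)
    have h4 : N x x' ⊆ {y, z} := by
      intro u hu
      rcases no_five hG hxx hyz h1 h2 (mem_filter.mp hu).2 with rfl | rfl <;> simp
    have h5 : (N x x').card ≤ 2 := (card_le_card h4).trans card_le_two
    rw [mem_biUnion]
    refine ⟨(x, x', z), mem_univ _, ?_⟩
    simp only [h5, if_true]
    exact mem_image.mpr ⟨y, mem_filter.mpr ⟨mem_univ _, h3⟩, rfl⟩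
  calc (Bad G).card ≤ ∑ _q : Fin n × Fin n × Fin n, 2 := by
        refine (card_le_card hcov).trans (card_biUnion_le.trans (sum_le_sum fun q _ => ?_))
        refine card_image_le.trans ?_
        split_ifs with h
        · exact h
        · simp
    _ = 2 * n ^ 3 := by
        rw [sum_const, card_univ]
        simp only [Fintype.card_prod, Fintype.card_fin, smul_eq_mul]
        ring

theorem ex_upper {m n : ℕ} (hm : 4 ≤ m) (hmn : m ≤ n) :
    (ex 3 5 n : ℝ) / n.choose 3 ≤ ((m : ℝ) ^ 3 / 27) / m.choose 3 +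
      m.choose 4 * ((2 * (n : ℝ) ^ 3) / n.choose 4) := by
  obtain ⟨G, hG, hGc⟩ := exists_ex (s := 3) (k := 5) (n := n) (by norm_num)
  rw [← hGc]
  refine (avg_real (b := (m : ℝ) ^ 3 / 27) (by positivity) (show 3 ≤ m by omega) hm hmn G (Bad G)
    hG.1 (fun K hK => (mem_filter.mp hK).2.1) fun M hMc hM => ?_).trans ?_
  · rw [← hMc]
    apply canc_card (fun U hU => hG.1 U (mem_filter.mp hU).1) (canc_of hG hM) M
      (fun U hU => (mem_filter.mp hU).2)
    rw [← card_pos]; omega
  · have h1 : ((Bad G).card : ℝ) ≤ 2 * (n : ℝ) ^ 3 := by exact_mod_cast bad_card hG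
    gcongr

theorem L_upper : L 3 5 ≤ 2 / 9 := by
  have key : ∀ m n : ℕ, 5 ≤ m → m ≤ n → L 3 5 ≤ ((m : ℝ) ^ 3 / 27) / m.choose 3 +
      m.choose 4 * ((2 * (n : ℝ) ^ 3) / n.choose 4) := fun m n hm hmn =>
    (L_le (hm.trans hmn)).trans (ex_upper (by omega) hmn)
  have h1 : ∀ m : ℕ, 5 ≤ m → L 3 5 ≤ ((m : ℝ) ^ 3 / 27) / m.choose 3 := by
    intro m hm
    have ht : Tendsto (fun j : ℕ => ((m : ℝ) ^ 3 / 27) / m.choose 3 +
        m.choose 4 * (48 * (1 + 3 / (j : ℝ)) ^ 3 * (1 / (j : ℝ)))) atTop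
        (𝓝 (((m : ℝ) ^ 3 / 27) / m.choose 3 + m.choose 4 * (48 * (1 + 0) ^ 3 * 0))) := by
      have h2 := tendsto_const_div_atTop_nhds_zero_nat (3 : ℝ)
      have h3 := tendsto_const_div_atTop_nhds_zero_nat (1 : ℝ)
      exact tendsto_const_nhds.add (((((h2.const_add 1).pow 3).const_mul 48).mul h3).const_mul _)
    have h4 : L 3 5 ≤ ((m : ℝ) ^ 3 / 27) / m.choose 3 + m.choose 4 * (48 * (1 + 0) ^ 3 * 0) := by
      apply ge_of_tendsto ht
      filter_upwards [eventually_ge_atTop m] with j hj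
      refine (key m (j + 3) hm (by omega)).trans ?_
      have hj0 : (0:ℝ) < j := by
        have : 0 < j := by omega
        exact_mod_cast this
      have h5 : (j : ℝ) ^ 4 / 24 ≤ (j + 3).choose 4 := by
        have := Nat.pow_le_choose (α := ℝ) 4 (j + 3)
        simpa [Nat.factorial] using this
      have h6 : (2 * ((j + 3 : ℕ) : ℝ) ^ 3) / (j + 3).choose 4 ≤
          48 * (1 + 3 / (j : ℝ)) ^ 3 * (1 / (j : ℝ)) := by
        calc (2 * ((j + 3 : ℕ) : ℝ) ^ 3) / (j + 3).choose 4
            ≤ (2 * ((j + 3 : ℕ) : ℝ) ^ 3) / ((j : ℝ) ^ 4 / 24) := by gcongr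
          _ = _ := by
            push_cast
            field_simp
            ring
      gcongr
    simpa using h4
  have ht : Tendsto (fun j : ℕ => (2 / 9 : ℝ) * (1 + 2 / (j : ℝ)) ^ 3) atTop
      (𝓝 ((2 / 9) * (1 + 0) ^ 3)) :=
    (((tendsto_const_div_atTop_nhds_zero_nat (2 : ℝ)).const_add 1).pow 3).const_mul _
  have h2 : L 3 5 ≤ (2 / 9) * (1 + 0) ^ 3 := by
    apply ge_of_tendsto ht
    filter_upwards [eventually_ge_atTop 3] with j hj
    refine (h1 (j + 2) (by omega)).trans ?_
    have hj0 : (0:ℝ) < j := by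
      have : 0 < j := by omega
      exact_mod_cast this
    have h5 : (j : ℝ) ^ 3 / 6 ≤ (j + 2).choose 3 := by
      have := Nat.pow_le_choose (α := ℝ) 3 (j + 2)
      simpa [Nat.factorial] using this
    calc (((j + 2 : ℕ) : ℝ) ^ 3 / 27) / (j + 2).choose 3
        ≤ (((j + 2 : ℕ) : ℝ) ^ 3 / 27) / ((j : ℝ) ^ 3 / 6) := by gcongr
      _ = _ := by
        push_cast
        field_simp
        ring
  simpa using h2

/-- the complete 3-partite family of triples -/
noncomputable def threeParts (n : ℕ) : Finset (Finset (Fin n)) :=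
  univ.filter fun U => U.card = 3 ∧ ∀ a ∈ U, ∀ b ∈ U, a.1 % 3 = b.1 % 3 → a = b

theorem threeParts_free (n : ℕ) : SysFree 3 5 (threeParts n) := by
  refine ⟨fun U hU => (mem_filter.mp hU).2.1, fun K hK hS => ?_⟩
  -- a class with at most one element of `K`
  obtain ⟨r, hr, hr1⟩ : ∃ r ∈ range 3, (K.filter fun a => a.1 % 3 = r).card ≤ 1 := by
    by_contra hc
    push Not at hc
    have h1 : K.card = ∑ r ∈ range 3, (K.filter fun a => a.1 % 3 = r).card := by
      apply card_eq_sum_card_fiberwise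
      intro a _
      simp only [coe_range, Set.mem_Iio]
      exact Nat.mod_lt _ (by norm_num)
    have h2 : ∑ _r ∈ range 3, 2 ≤ ∑ r ∈ range 3, (K.filter fun a => a.1 % 3 = r).card :=
      sum_le_sum fun r hr => hc r hr
    rw [← h1, hK] at h2
    simp at h2
  have h2 : 4 ≤ (K.filter fun a => a.1 % 3 ≠ r).card := by
    have := card_filter_add_card_filter_not (s := K) (fun a => a.1 % 3 = r)
    simp only [ne_eq]
    omega
  obtain ⟨T, hT, hTc⟩ := exists_subset_card_eq h2
  obtain ⟨U, hU, hUT⟩ := hS T (hT.trans (filter_subset _ _)) hTc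
  obtain ⟨-, hUc, hUi⟩ := mem_filter.mp hU
  have h3 : U.card ≤ ((range 3).erase r).card := by
    apply card_le_card_of_injOn (fun a => a.1 % 3)
    · intro a ha
      have := (mem_filter.mp (hT (hUT ha))).2
      simp only [coe_erase, coe_range, Set.mem_sdiff, Set.mem_Iio, Set.mem_singleton_iff]
      exact ⟨Nat.mod_lt _ (by norm_num), this⟩
    · intro a ha b hb hab
      exact hUi a ha b hb hab
  rw [card_erase_of_mem hr, card_range, hUc] at h3
  omega

theorem threeParts_card (j : ℕ) : j ^ 3 ≤ (threeParts (3 * j)).card := by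
  let f : Fin j × Fin j × Fin j → Finset (Fin (3 * j)) := fun q =>
    {⟨3 * q.1.1, by omega⟩, ⟨3 * q.2.1.1 + 1, by omega⟩, ⟨3 * q.2.2.1 + 2, by omega⟩}
  have h1 : j ^ 3 = (univ : Finset (Fin j × Fin j × Fin j)).card := by
    rw [card_univ]
    simp only [Fintype.card_prod, Fintype.card_fin]
    ring
  rw [h1]
  apply card_le_card_of_injOn f
  · rintro ⟨a, b, c⟩ -
    have h2 : (f (a, b, c)).card = 3 := by
      simp only [f]
      rw [card_insert_of_notMem, card_insert_of_notMem, card_singleton]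
      · simp only [mem_singleton, Fin.mk.injEq]; omega
      · simp only [mem_insert, mem_singleton, Fin.mk.injEq]; omega
    refine mem_coe.mpr (mem_filter.mpr ⟨mem_univ _, h2, fun x hx y hy hxy => ?_⟩)
    simp only [f, mem_insert, mem_singleton] at hx hy
    rcases hx with rfl | rfl | rfl <;> rcases hy with rfl | rfl | rfl <;>
      first | rfl | (exfalso; simp only at hxy; omega)
  · rintro ⟨a, b, c⟩ - ⟨a', b', c'⟩ - h
    have h2 : ∀ x : Fin (3 * j), x ∈ f (a, b, c) ↔ x ∈ f (a', b', c') := fun x => by rw [h]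
    simp only [f, mem_insert, mem_singleton] at h2
    have e1 := (h2 ⟨3 * a.1, by omega⟩).mp (Or.inl rfl)
    have e2 := (h2 ⟨3 * b.1 + 1, by omega⟩).mp (Or.inr (Or.inl rfl))
    have e3 := (h2 ⟨3 * c.1 + 2, by omega⟩).mp (Or.inr (Or.inr rfl))
    simp only [Fin.mk.injEq] at e1 e2 e3
    simp only [Prod.mk.injEq, Fin.ext_iff]
    omega

theorem L_lower : 2 / 9 ≤ L 3 5 := by
  have h1 := L_lim (s := 3) (k := 5) (by norm_num)
  have h2 : Tendsto (fun j : ℕ => 3 * j) atTop atTop :=
    tendsto_id.const_mul_atTop' (by norm_num : 0 < 3)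
  have h3 := h1.comp h2
  apply ge_of_tendsto h3
  filter_upwards [eventually_ge_atTop 1] with j hj
  simp only [Function.comp_apply]
  have h4 : (j : ℝ) ^ 3 ≤ ex 3 5 (3 * j) := by
    exact_mod_cast (threeParts_card j).trans (le_ex (threeParts_free _))
  have h5 : ((3 * j).choose 3 : ℝ) ≤ (3 * (j : ℝ)) ^ 3 / 6 := by
    have := Nat.choose_le_pow_div (α := ℝ) 3 (3 * j)
    simpa [Nat.factorial] using this
  have h6 : (0:ℝ) < (3 * j).choose 3 := by
    exact_mod_cast Nat.choose_pos (show 3 ≤ 3 * j by omega)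
  rw [le_div_iff₀ h6]
  calc (2 / 9 : ℝ) * (3 * j).choose 3 ≤ 2 / 9 * ((3 * (j : ℝ)) ^ 3 / 6) := by gcongr
    _ = (j : ℝ) ^ 3 := by ring
    _ ≤ _ := h4

/-- **the Turán density of the `(5, 4, 3)`-systems** -/
theorem L_three_five : L 3 5 = 2 / 9 := le_antisymm L_upper L_lower

end Pool.Agent.V11262.TD
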