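import Pool.Agent.V11262.TD.Gen

/-!
# `L(2, k) = 1 - 1 / ⌊(k - 1) / 2⌋`
-/

set_option autoImplicit false
open Finset Filter Topology
open scoped Classical

namespace Pool.Agent.V11262.TD

variable {n : ℕ}

/-- the graph of a family of pairs -/
def SG (G : Finset (Finset (Fin n))) : SimpleGraph (Fin n) where
  Adj a b := a ≠ b ∧ ({a, b} : Finset (Fin n)) ∈ G
  symm := ⟨fun a b h => ⟨h.1.symm, by rw [pair_comm]; exact h.2⟩⟩
  loopless := ⟨fun a h => h.1 rfl⟩

theorem card_le_SG {G : Finset (Finset (Fin n))} (hG : ∀ U ∈ G, U.card = 2) :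
    G.card ≤ (SG G).edgeFinset.card := by
  have h1 : G ⊆ (SG G).edgeFinset.image Sym2.toFinset := by
    intro U hU
    obtain ⟨a, b, hab, rfl⟩ := card_eq_two.mp (hG U hU)
    rw [mem_image]
    refine ⟨s(a, b), ?_, Sym2.toFinset_mk_eq⟩
    rw [SimpleGraph.mem_edgeFinset, SimpleGraph.mem_edgeSet]
    exact ⟨hab, hU⟩
  exact (card_le_card h1).trans card_image_le

theorem turan_real {c : ℕ} (hc : 1 ≤ c) {G : Finset (Finset (Fin n))} (hG : ∀ U ∈ G, U.card = 2)
    (hf : (SG G).CliqueFree (c + 1)) : (G.card : ℝ) ≤ (1 - 1 / (c : ℝ)) * (n : ℝ) ^ 2 / 2 := by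
  have h1 := hf.card_edgeFinset_le
  simp only [Fintype.card_fin] at h1
  rw [← SimpleGraph.card_edgeFinset_turanGraph] at h1
  have h2 := SimpleGraph.mul_card_edgeFinset_turanGraph_le (n := n) (r := c)
  have h3 : 2 * c * G.card ≤ (c - 1) * n ^ 2 :=
    (Nat.mul_le_mul_left _ ((card_le_SG hG).trans h1)).trans h2
  have h4 : (2 * c * G.card : ℝ) ≤ ((c : ℝ) - 1) * (n : ℝ) ^ 2 := by
    have : ((2 * c * G.card : ℕ) : ℝ) ≤ (((c - 1) * n ^ 2 : ℕ) : ℝ) := by exact_mod_cast h3
    rw [Nat.cast_mul, Nat.cast_mul, Nat.cast_mul, Nat.cast_sub hc, Nat.cast_pow] at this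
    exact_mod_cast this
  have hc0 : (0:ℝ) < c := by exact_mod_cast hc
  have h5 : (c : ℝ) * G.card ≤ c * ((1 - 1 / (c : ℝ)) * (n : ℝ) ^ 2 / 2) := by
    have : (c : ℝ) * ((1 - 1 / (c : ℝ)) * (n : ℝ) ^ 2 / 2) = ((c : ℝ) - 1) * (n : ℝ) ^ 2 / 2 := by
      field_simp
    rw [this]; linarith
  exact le_of_mul_le_mul_left h5 hc0

theorem two_upper {k : ℕ} (hk : 3 ≤ k) (n : ℕ) :
    (ex 2 k n : ℝ) ≤ (1 - 1 / (((k - 1) / 2 : ℕ) : ℝ)) * (n : ℝ) ^ 2 / 2 +
      ((k - 1) / 2 + 1 : ℕ) * n := by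
  set c := (k - 1) / 2 with hc
  have hc1 : 1 ≤ c := by omega
  have hkc : k ≤ 2 * (c + 1) := by omega
  obtain ⟨G, hG, hGc⟩ := exists_ex (s := 2) (k := k) (n := n) (by omega)
  rw [← hGc]
  by_cases hf : (SG G).CliqueFree (c + 1)
  · have h1 := turan_real hc1 hG.1 hf
    have h2 : (0:ℝ) ≤ (c + 1 : ℕ) * n := by positivity
    linarith
  -- a complete subgraph `A`
  unfold SimpleGraph.CliqueFree at hf
  push Not at hf
  obtain ⟨A, hA⟩ := hf
  have hAc := hA.card_eq
  have hAadj : ∀ a ∈ A, ∀ b ∈ A, a ≠ b → ({a, b} : Finset (Fin n)) ∈ G := fun a ha b hb hab =>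
    (hA.isClique ha hb hab).2
  set G' := G.filter fun U => Disjoint U A with hG'
  have hG'2 : ∀ U ∈ G', U.card = 2 := fun U hU => hG.1 U (mem_filter.mp hU).1
  have hf' : (SG G').CliqueFree (c + 1) := by
    intro B hB
    have hBc := hB.card_eq
    have hBadj : ∀ a ∈ B, ∀ b ∈ B, a ≠ b → ({a, b} : Finset (Fin n)) ∈ G' := fun a ha b hb hab =>
      (hB.isClique ha hb hab).2
    have hdis : Disjoint A B := by
      rw [disjoint_right]
      intro b hb hbA
      obtain ⟨b', hb', hne⟩ := exists_mem_ne (show 1 < B.card by omega) b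
      have h1 := (mem_filter.mp (hBadj b hb b' hb' hne.symm)).2
      exact (disjoint_left.mp h1 (by simp)) hbA
    have hABc : (A ∪ B).card = 2 * (c + 1) := by
      rw [card_union_of_disjoint hdis, hAc, hBc]; ring
    obtain ⟨K, hK, hKc⟩ := exists_subset_card_eq (show k ≤ (A ∪ B).card by omega)
    apply hG.2 K hKc
    intro T hT hTc
    have h1 : T.card ≤ (T ∩ A).card + (T ∩ B).card := by
      rw [← card_union_of_disjoint, ← inter_union_distrib_left,
        inter_eq_left.mpr (hT.trans hK)]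
      exact disjoint_of_subset_left inter_subset_right
        (disjoint_of_subset_right inter_subset_right hdis)
    rcases Nat.lt_or_ge (T ∩ A).card 2 with h2 | h2
    · obtain ⟨a, ha, b, hb, hab⟩ := one_lt_card.mp (show 1 < (T ∩ B).card by omega)
      refine ⟨{a, b}, (mem_filter.mp (hBadj a (mem_inter.mp ha).2 b (mem_inter.mp hb).2 hab)).1, ?_⟩
      intro x hx
      simp only [mem_insert, mem_singleton] at hx
      rcases hx with rfl | rfl
      · exact (mem_inter.mp ha).1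
      · exact (mem_inter.mp hb).1
    · obtain ⟨a, ha, b, hb, hab⟩ := one_lt_card.mp (show 1 < (T ∩ A).card by omega)
      refine ⟨{a, b}, hAadj a (mem_inter.mp ha).2 b (mem_inter.mp hb).2 hab, ?_⟩
      intro x hx
      simp only [mem_insert, mem_singleton] at hx
      rcases hx with rfl | rfl
      · exact (mem_inter.mp ha).1
      · exact (mem_inter.mp hb).1
  have h1 := turan_real hc1 hG'2 hf'
  have h2 : G.card ≤ G'.card + (c + 1) * n := by
    rw [← card_filter_add_card_filter_not (s := G) (fun U => Disjoint U A)]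
    apply Nat.add_le_add_left
    have h3 : (G.filter fun U => ¬ Disjoint U A) ⊆
        A.biUnion fun a => (univ : Finset (Fin n)).image fun b => ({a, b} : Finset (Fin n)) := by
      intro U hU
      obtain ⟨hU1, hU2⟩ := mem_filter.mp hU
      obtain ⟨a, haU, haA⟩ := not_disjoint_iff.mp hU2
      rw [mem_biUnion]
      refine ⟨a, haA, ?_⟩
      rw [mem_image]
      obtain ⟨x, y, hxy, rfl⟩ := card_eq_two.mp (hG.1 U hU1)
      simp only [mem_insert, mem_singleton] at haU
      rcases haU with rfl | rfl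
      · exact ⟨y, mem_univ _, rfl⟩
      · exact ⟨x, mem_univ _, pair_comm _ _⟩
    refine (card_le_card h3).trans (card_biUnion_le.trans ?_)
    calc ∑ a ∈ A, ((univ : Finset (Fin n)).image fun b => ({a, b} : Finset (Fin n))).card
        ≤ ∑ _a ∈ A, n := by
          refine sum_le_sum fun a _ => card_image_le.trans ?_
          rw [card_univ, Fintype.card_fin]
      _ = (c + 1) * n := by rw [sum_const, hAc, smul_eq_mul]
  have h3 : (G.card : ℝ) ≤ G'.card + (c + 1 : ℕ) * n := by exact_mod_cast h2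
  linarith

/-- the pairs in different classes modulo `c` -/
noncomputable def parts (c n : ℕ) : Finset (Finset (Fin n)) :=
  univ.filter fun U => U.card = 2 ∧ ∀ a ∈ U, ∀ b ∈ U, a.1 % c = b.1 % c → a = b

theorem parts_free {k : ℕ} (hk : 3 ≤ k) (n : ℕ) : SysFree 2 k (parts ((k - 1) / 2) n) := by
  set c := (k - 1) / 2 with hc
  have hc1 : 1 ≤ c := by omega
  refine ⟨fun U hU => (mem_filter.mp hU).2.1, fun K hK hS => ?_⟩
  obtain ⟨r, -, hr⟩ : ∃ r ∈ range c, 2 < (K.filter fun a => a.1 % c = r).card := by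
    apply exists_lt_card_fiber_of_mul_lt_card_of_maps_to
    · intro a _
      exact mem_range.mpr (Nat.mod_lt _ hc1)
    · rw [card_range, hK]; omega
  obtain ⟨T, hT, hTc⟩ := exists_subset_card_eq (show 3 ≤ _ from hr)
  obtain ⟨U, hU, hUT⟩ := hS T (hT.trans (filter_subset _ _)) hTc
  obtain ⟨-, hUc, hUi⟩ := mem_filter.mp hU
  obtain ⟨a, ha, b, hb, hab⟩ := one_lt_card.mp (show 1 < U.card by omega)
  apply hab
  apply hUi a ha b hb
  rw [(mem_filter.mp (hT (hUT ha))).2, (mem_filter.mp (hT (hUT hb))).2]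

theorem parts_card {c : ℕ} (n : ℕ) :
    (SimpleGraph.turanGraph n c).edgeFinset.card ≤ (parts c n).card := by
  apply card_le_card_of_injOn Sym2.toFinset
  · intro e he
    rw [mem_coe, SimpleGraph.mem_edgeFinset] at he
    induction e using Sym2.ind with
    | _ a b =>
      rw [SimpleGraph.mem_edgeSet, SimpleGraph.turanGraph_adj] at he
      have hab : a ≠ b := fun h => he (by rw [h])
      refine mem_coe.mpr (mem_filter.mpr ⟨mem_univ _, ?_, ?_⟩)
      · rw [Sym2.toFinset_mk_eq, card_pair hab]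
      · rw [Sym2.toFinset_mk_eq]
        intro x hx y hy hxy
        simp only [mem_insert, mem_singleton] at hx hy
        rcases hx with rfl | rfl <;> rcases hy with rfl | rfl
        · rfl
        · exact absurd hxy he
        · exact absurd hxy.symm he
        · rfl
  · intro e _ e' _ h
    apply Sym2.ext
    intro x
    rw [← Sym2.mem_toFinset, ← Sym2.mem_toFinset, h]

theorem two_lower {k : ℕ} (hk : 3 ≤ k) (j : ℕ) :
    (1 - 1 / (((k - 1) / 2 : ℕ) : ℝ)) * (((((k - 1) / 2) * j : ℕ) : ℝ)) ^ 2 / 2 ≤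
      ex 2 k ((k - 1) / 2 * j) := by
  have h0 := (parts_card (c := (k - 1) / 2) ((k - 1) / 2 * j)).trans (le_ex (parts_free hk _))
  set c := (k - 1) / 2 with hc
  have hc1 : 1 ≤ c := by omega
  rw [SimpleGraph.card_edgeFinset_turanGraph] at h0
  obtain ⟨q, hq⟩ : ∃ q, c * (c - 1) = 2 * q := by
    obtain ⟨q, hq⟩ := Nat.even_mul_pred_self c
    exact ⟨q, by omega⟩
  have h1 : ((c * j) ^ 2 - ((c * j) % c) ^ 2) * (c - 1) = 2 * c * (q * j ^ 2) := by
    rw [Nat.mul_mod_right]
    simp only [ne_eq, OfNat.ofNat_ne_zero, not_false_eq_true, zero_pow, tsub_zero]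
    calc (c * j) ^ 2 * (c - 1) = c * (c * (c - 1)) * j ^ 2 := by ring
      _ = c * (2 * q) * j ^ 2 := by rw [hq]
      _ = _ := by ring
  rw [h1, Nat.mul_div_cancel_left _ (by omega)] at h0
  have h2 : q * j ^ 2 ≤ ex 2 k (c * j) := (Nat.le_add_right _ _).trans h0
  have h3 : ((q * j ^ 2 : ℕ) : ℝ) ≤ ex 2 k (c * j) := by exact_mod_cast h2
  refine le_trans (le_of_eq ?_) h3
  have hq' : (c : ℝ) * ((c : ℝ) - 1) = 2 * q := by
    have : ((c * (c - 1) : ℕ) : ℝ) = ((2 * q : ℕ) : ℝ) := by rw [hq]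
    rw [Nat.cast_mul, Nat.cast_sub hc1, Nat.cast_mul] at this
    exact_mod_cast this
  have hc0 : (c : ℝ) ≠ 0 := by
    have : (0:ℝ) < c := by exact_mod_cast hc1
    exact this.ne'
  push_cast
  have h4 : (q : ℝ) = c * (c - 1) / 2 := by linarith
  rw [h4]
  field_simp

/-- **the Turán density for `s = 2`** -/
theorem L_two {k : ℕ} (hk : 3 ≤ k) : L 2 k = 1 - 1 / (((k - 1) / 2 : ℕ) : ℝ) := by
  have hlim := L_lim (s := 2) (k := k) (by omega)
  set c := (k - 1) / 2 with hc
  have hc1 : 1 ≤ c := by omega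
  have hc0 : (0:ℝ) < c := by exact_mod_cast hc1
  have hcc : (0:ℝ) ≤ 1 - 1 / (c : ℝ) := by
    rw [sub_nonneg, div_le_one hc0]
    exact_mod_cast hc1
  apply le_antisymm
  · have ht : Tendsto (fun j : ℕ => (1 - 1 / (c : ℝ)) * (1 + 1 / (j : ℝ)) ^ 2 +
        ((c + 1 : ℕ) : ℝ) * 2 * ((1 + 1 / (j : ℝ)) * (1 / (j : ℝ)))) atTop
        (𝓝 ((1 - 1 / (c : ℝ)) * (1 + 0) ^ 2 + ((c + 1 : ℕ) : ℝ) * 2 * ((1 + 0) * 0))) := by
      have h3 := tendsto_const_div_atTop_nhds_zero_nat (1 : ℝ)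
      exact (((h3.const_add 1).pow 2).const_mul _).add (((h3.const_add 1).mul h3).const_mul _)
    have h4 : L 2 k ≤ (1 - 1 / (c : ℝ)) * (1 + 0) ^ 2 + ((c + 1 : ℕ) : ℝ) * 2 * ((1 + 0) * 0) := by
      apply ge_of_tendsto ht
      filter_upwards [eventually_ge_atTop k] with j hj
      refine (L_le (show k ≤ j + 1 by omega)).trans ?_
      have hj0 : (0:ℝ) < j := by
        have : 0 < j := by omega
        exact_mod_cast this
      have h1 := two_upper hk (j + 1)
      rw [← hc] at h1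
      have h2 : (j : ℝ) ^ 2 / 2 ≤ (j + 1).choose 2 := by
        have := Nat.pow_le_choose (α := ℝ) 2 (j + 1)
        simpa using this
      calc (ex 2 k (j + 1) : ℝ) / (j + 1).choose 2
          ≤ ((1 - 1 / (c : ℝ)) * (((j + 1 : ℕ) : ℝ)) ^ 2 / 2 +
              ((c + 1 : ℕ) : ℝ) * ((j + 1 : ℕ) : ℝ)) / ((j : ℝ) ^ 2 / 2) := by gcongr
        _ = _ := by
          push_cast
          field_simp
    simpa using h4
  · have h2 : Tendsto (fun j : ℕ => c * j) atTop atTop :=
      tendsto_id.const_mul_atTop' hc1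
    have h3 := hlim.comp h2
    apply ge_of_tendsto h3
    filter_upwards [eventually_ge_atTop 2] with j hj
    simp only [Function.comp_apply]
    have h4 := two_lower hk j
    rw [← hc] at h4
    have h5 : ((c * j).choose 2 : ℝ) ≤ (((c * j : ℕ) : ℝ)) ^ 2 / 2 := by
      have := Nat.choose_le_pow_div (α := ℝ) 2 (c * j)
      simpa using this
    have h6 : (0:ℝ) < (c * j).choose 2 := by
      have : 2 ≤ c * j := by nlinarith
      exact_mod_cast Nat.choose_pos this
    rw [le_div_iff₀ h6]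
    refine le_trans ?_ h4
    calc (1 - 1 / (c : ℝ)) * ((c * j).choose 2 : ℝ)
        ≤ (1 - 1 / (c : ℝ)) * ((((c * j : ℕ) : ℝ)) ^ 2 / 2) := by gcongr
      _ = _ := by ring

end Pool.Agent.V11262.TD
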