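import Pool.Agent.V11262.TD.Gen

/-!
# Power sums of codegrees, and hypergraphs with a gap in the codegrees
-/

set_option autoImplicit false
open Finset Filter Topology
open scoped Classical

namespace Pool.Agent.V11262.TD

variable {n : ℕ}

theorem codegree_le (H : Finset (Finset (Fin n))) (U : Finset (Fin n)) : codegree H U ≤ n := by
  unfold codegree
  refine (card_le_univ _).trans ?_
  rw [Fintype.card_fin]

/-- the sum of the `p`-th powers of the relative codegrees of the sets with `s` elements -/
noncomputable def powerSum (s : ℕ) (p : ℝ) (H : Finset (Finset (Fin n))) : ℝ :=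
  ∑ U ∈ powersetCard s (univ : Finset (Fin n)), ((codegree H U : ℝ) / n) ^ p

theorem card_ps (s : ℕ) : (powersetCard s (univ : Finset (Fin n))).card = n.choose s := by
  rw [card_powersetCard, card_univ, Fintype.card_fin]

theorem heavy_sub (s : ℕ) (ε : ℝ) (H : Finset (Finset (Fin n))) :
    heavy s ε H ⊆ powersetCard s (univ : Finset (Fin n)) := fun U hU =>
  mem_powersetCard.mpr ⟨subset_univ _, (mem_filter.mp hU).2.1⟩

theorem powerSum_le {s : ℕ} {ε p : ℝ} (hε1 : ε < 1) (hp : 0 < p) (hn : 0 < n)
    (H : Finset (Finset (Fin n))) :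
    powerSum s p H ≤ (heavy s ε H).card + (1 - ε) ^ p * n.choose s := by
  have hn0 : (0:ℝ) < n := by exact_mod_cast hn
  unfold powerSum
  calc ∑ U ∈ powersetCard s (univ : Finset (Fin n)), ((codegree H U : ℝ) / n) ^ p
      ≤ ∑ U ∈ powersetCard s (univ : Finset (Fin n)),
          ((if U ∈ heavy s ε H then 1 else 0) + (1 - ε) ^ p) := by
        refine sum_le_sum fun U hU => ?_
        have h0 : (0:ℝ) ≤ (codegree H U : ℝ) / n := by positivity
        have h1 : (codegree H U : ℝ) / n ≤ 1 := by
          rw [div_le_one hn0]; exact_mod_cast codegree_le H U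
        have h2 : (0:ℝ) ≤ (1 - ε) ^ p := Real.rpow_nonneg (by linarith) _
        by_cases h : U ∈ heavy s ε H
        · rw [if_pos h]
          have := Real.rpow_le_one h0 h1 hp.le
          linarith
        · rw [if_neg h, zero_add]
          apply Real.rpow_le_rpow h0 _ hp.le
          rw [div_le_iff₀ hn0]
          by_contra hc
          push Not at hc
          exact h (mem_filter.mpr ⟨mem_univ _, (mem_powersetCard.mp hU).2, hc.le⟩)
    _ = _ := by
        rw [sum_add_distrib, sum_const, card_ps, nsmul_eq_mul, sum_ite_mem,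
          inter_eq_right.mpr (heavy_sub s ε H), sum_const, nsmul_eq_mul]
        ring

/-- **power sums, upper bound** -/
theorem power_upper {s k : ℕ} (hsk : s + 1 ≤ k) {δ : ℝ} (hδ : 0 < δ) :
    ∃ p₀ : ℝ, 0 < p₀ ∧ ∃ N : ℕ, ∀ p : ℝ, p₀ ≤ p → ∀ n : ℕ, N ≤ n → ∀ H : Finset (Finset (Fin n)),
      CliqueFree (s + 1) k H → powerSum s p H ≤ (L s k + δ) * n.choose s := by
  obtain ⟨ε, hε, hε1, N, hN⟩ := heavy_upper hsk (half_pos hδ)
  have ht : Tendsto (fun p : ℝ => (1 - ε) ^ p) atTop (𝓝 0) :=
    tendsto_rpow_atTop_of_base_lt_one _ (by linarith) (by linarith)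
  obtain ⟨p₁, hp₁⟩ := (ht.eventually (gt_mem_nhds (half_pos hδ))).exists_forall_of_atTop
  refine ⟨max p₁ 1, by positivity, max N 1, fun p hp n hn H hH => ?_⟩
  have h1 := powerSum_le (s := s) hε1 (show 0 < p by
    have := (le_max_right p₁ 1).trans hp; linarith)
    (show 0 < n by have := (le_max_right N 1).trans hn; omega) H
  have h2 := hN n ((le_max_left _ _).trans hn) H hH
  have h3 := hp₁ p ((le_max_left _ _).trans hp)
  have h4 : (1 - ε) ^ p * (n.choose s : ℝ) ≤ δ / 2 * n.choose s := by gcongr
  calc powerSum s p H ≤ _ := h1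
    _ ≤ (L s k + δ / 2) * n.choose s + δ / 2 * n.choose s := by linarith
    _ = _ := by ring

/-- **power sums, lower bound** -/
theorem power_lower {s k : ℕ} (hsk : s + 1 ≤ k) {δ : ℝ} (hδ : 0 < δ) (p : ℝ) (hp : 0 < p) :
    ∃ N : ℕ, ∀ n : ℕ, N ≤ n → ∃ H : Finset (Finset (Fin n)),
      CliqueFree (s + 1) k H ∧ (L s k - δ) * n.choose s ≤ powerSum s p H := by
  -- `(1 - s/n)^p` tends to one
  have h1 : Tendsto (fun n : ℕ => (1 - (s : ℝ) / n) ^ p) atTop (𝓝 ((1 - 0) ^ p)) := by
    apply Tendsto.rpow_const
    · exact (tendsto_const_div_atTop_nhds_zero_nat (s : ℝ)).const_sub 1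
    · left; norm_num
  rw [sub_zero, Real.one_rpow] at h1
  set η := δ / (L s k + 1) with hη
  have hL := L_nonneg s k
  have hη0 : 0 < η := by positivity
  obtain ⟨N, hN⟩ := (h1.eventually (lt_mem_nhds (show 1 - η < 1 by linarith))).exists_forall_of_atTop
  refine ⟨max N (max k (s + 1)), fun n hn => ?_⟩
  have hnk : k ≤ n := ((le_max_left k (s + 1)).trans (le_max_right N _)).trans hn
  have hns : s + 1 ≤ n := ((le_max_right k (s + 1)).trans (le_max_right N _)).trans hn
  have hn0 : (0:ℝ) < n := by
    have : 0 < n := by omega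
    exact_mod_cast this
  obtain ⟨H, hH, G, hG, hGc⟩ := heavy_lower (n := n) hsk
  refine ⟨H, hH, ?_⟩
  have h2 := hN n ((le_max_left _ _).trans hn)
  have hGsub : G ⊆ powersetCard s (univ : Finset (Fin n)) := fun U hU =>
    mem_powersetCard.mpr ⟨subset_univ _, (hG U hU).1⟩
  have h3 : (G.card : ℝ) * (1 - (s : ℝ) / n) ^ p ≤ powerSum s p H := by
    unfold powerSum
    calc (G.card : ℝ) * (1 - (s : ℝ) / n) ^ p = ∑ U ∈ G, (1 - (s : ℝ) / n) ^ p := by
          rw [sum_const, nsmul_eq_mul]
      _ ≤ ∑ U ∈ G, ((codegree H U : ℝ) / n) ^ p := by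
          refine sum_le_sum fun U hU => ?_
          apply Real.rpow_le_rpow _ _ hp.le
          · rw [sub_nonneg, div_le_one hn0]
            exact_mod_cast (show s ≤ n by omega)
          · have h4 : ((n - s : ℕ) : ℝ) ≤ codegree H U := by exact_mod_cast (hG U hU).2
            rw [Nat.cast_sub (by omega)] at h4
            rw [le_div_iff₀ hn0]
            calc (1 - (s : ℝ) / n) * n = n - s := by field_simp
              _ ≤ _ := h4
      _ ≤ _ := sum_le_sum_of_subset_of_nonneg hGsub fun U _ _ => by positivity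
  have p2 : (0:ℝ) < n.choose s := by exact_mod_cast Nat.choose_pos (show s ≤ n by omega)
  have h5 : L s k * n.choose s ≤ G.card := by
    have := L_le (s := s) hnk
    rw [le_div_iff₀ p2] at this
    rw [hGc]; exact this
  have h6 : L s k * n.choose s * (1 - η) ≤ powerSum s p H := by
    refine le_trans ?_ h3
    calc L s k * n.choose s * (1 - η)
        ≤ L s k * n.choose s * (1 - (s : ℝ) / n) ^ p :=
          mul_le_mul_of_nonneg_left h2.le (by positivity)
      _ ≤ _ := by
          apply mul_le_mul_of_nonneg_right h5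
          apply Real.rpow_nonneg
          rw [sub_nonneg, div_le_one hn0]
          exact_mod_cast (show s ≤ n by omega)
  refine le_trans ?_ h6
  have h7 : L s k * η ≤ δ := by
    rw [hη, mul_div_assoc', div_le_iff₀ (by positivity)]
    nlinarith
  have h8 : L s k * η * n.choose s ≤ δ * n.choose s := by gcongr
  nlinarith

/-- double counting of the edges -/
theorem sum_codegree {s : ℕ} {H : Finset (Finset (Fin n))} (hH : ∀ e ∈ H, e.card = s + 1) :
    ∑ U ∈ powersetCard s (univ : Finset (Fin n)), codegree H U = (s + 1) * H.card := by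
  have h1 : ∀ U ∈ powersetCard s (univ : Finset (Fin n)), codegree H U =
      (H.filter fun e => U ⊆ e).card := by
    intro U hU
    have hUc := (mem_powersetCard.mp hU).2
    unfold codegree
    apply card_nbij (fun v => insert v U)
    · intro v hv
      exact mem_coe.mpr (mem_filter.mpr ⟨(mem_filter.mp (mem_coe.mp hv)).2, subset_insert _ _⟩)
    · intro v hv v' hv' h
      have hvU : v ∉ U := by
        intro hc
        have h2 := hH _ (mem_filter.mp (mem_coe.mp hv)).2
        rw [insert_eq_of_mem hc, hUc] at h2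
        omega
      have h3 : v ∈ insert v' U := by
        have : v ∈ insert v U := mem_insert_self _ _
        simp only at h
        rwa [h] at this
      rcases mem_insert.mp h3 with h4 | h4
      · exact h4
      · exact absurd h4 hvU
    · intro e he
      obtain ⟨he1, he2⟩ := mem_filter.mp (mem_coe.mp he)
      have h2 : (e \ U).card = 1 := by
        rw [card_sdiff_of_subset he2, hH e he1, hUc]; omega
      obtain ⟨v, hv⟩ := card_eq_one.mp h2
      have h3 : insert v U = e := by
        rw [← union_sdiff_of_subset he2, hv, union_comm]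
        rfl
      exact ⟨v, mem_coe.mpr (mem_filter.mpr ⟨mem_univ _, by rw [h3]; exact he1⟩), h3⟩
  rw [sum_congr rfl h1]
  have h2 := sum_comm' (s := powersetCard s (univ : Finset (Fin n)))
    (t := fun U => H.filter fun e => U ⊆ e) (t' := H)
    (s' := fun e => powersetCard s e) (f := fun _ _ => 1) (by
      intro U e
      simp only [mem_powersetCard, mem_filter, subset_univ, true_and]
      tauto)
  simp only [sum_const, smul_eq_mul, mul_one] at h2
  rw [h2]
  calc ∑ e ∈ H, (powersetCard s e).card = ∑ e ∈ H, (s + 1) := by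
        refine sum_congr rfl fun e he => ?_
        rw [card_powersetCard, hH e he, Nat.choose_succ_self_right]
    _ = _ := by rw [sum_const, smul_eq_mul, mul_comm]

/-- the sets with `s` elements whose codegree lies between `c n` and `(1 - ε) n` -/
noncomputable def gap (s : ℕ) (c ε : ℝ) (H : Finset (Finset (Fin n))) :
    Finset (Finset (Fin n)) :=
  univ.filter fun U => U.card = s ∧ c * (n : ℝ) < codegree H U ∧
    (codegree H U : ℝ) < (1 - ε) * (n : ℝ)

/-- **hypergraphs with few codegrees between `c n` and `(1 - ε) n`** -/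
theorem gap_upper {s k : ℕ} (hsk : s + 1 ≤ k) {c δ : ℝ} (hc0 : 0 ≤ c) (hc1 : c ≤ 1) (hδ : 0 < δ) :
    ∃ ε : ℝ, 0 < ε ∧ ε < 1 ∧ ∃ N : ℕ, ∀ n : ℕ, N ≤ n → ∀ H : Finset (Finset (Fin n)),
      CliqueFree (s + 1) k H →
        (H.card : ℝ) / n.choose (s + 1) ≤
          L s k + (1 - L s k) * c + (1 - c) * ((gap s c ε H).card / n.choose s) + δ := by
  obtain ⟨ε, hε, hε1, N, hN⟩ := heavy_upper hsk (show 0 < δ / 4 by positivity)
  have ht : Tendsto (fun n : ℕ => 1 - (s : ℝ) / n) atTop (𝓝 (1 - 0)) :=
    (tendsto_const_div_atTop_nhds_zero_nat (s : ℝ)).const_sub 1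
  rw [sub_zero] at ht
  have hδ1 : 1 / (1 + δ / 4) < (1 : ℝ) := by
    rw [div_lt_one (by positivity)]; linarith
  obtain ⟨N', hN'⟩ := (ht.eventually (lt_mem_nhds hδ1)).exists_forall_of_atTop
  refine ⟨ε, hε, hε1, max (max N N') (s + 1), fun n hn H hH => ?_⟩
  have hnN : N ≤ n := ((le_max_left N N').trans (le_max_left _ _)).trans hn
  have hnN' : N' ≤ n := ((le_max_right N N').trans (le_max_left _ _)).trans hn
  have hns : s + 1 ≤ n := (le_max_right _ _).trans hn
  have hn0 : (0:ℝ) < n := by
    have : 0 < n := by omega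
    exact_mod_cast this
  have p2 : (0:ℝ) < n.choose s := by exact_mod_cast Nat.choose_pos (show s ≤ n by omega)
  have p3 : (0:ℝ) < n.choose (s + 1) := by exact_mod_cast Nat.choose_pos hns
  have h1 := hN n hnN H hH
  have h2 := hN' n hnN'
  set h := ((heavy s ε H).card : ℝ) / n.choose s with hh
  set g := ((gap s c ε H).card : ℝ) / n.choose s with hg
  have hh1 : h ≤ L s k + δ / 4 := by rw [hh, div_le_iff₀ p2]; exact h1
  have hh0 : 0 ≤ h := by positivity
  have hg0 : 0 ≤ g := by positivity
  -- the sum of the codegrees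
  have hgsub : gap s c ε H ⊆ powersetCard s (univ : Finset (Fin n)) := fun U hU =>
    mem_powersetCard.mpr ⟨subset_univ _, (mem_filter.mp hU).2.1⟩
  have h3 : ((s + 1 : ℕ) : ℝ) * H.card ≤
      (c * n.choose s + (1 - c) * ((heavy s ε H).card + (gap s c ε H).card)) * n := by
    have h4 : ((s + 1 : ℕ) : ℝ) * H.card =
        ∑ U ∈ powersetCard s (univ : Finset (Fin n)), (codegree H U : ℝ) := by
      have := sum_codegree hH.1
      exact_mod_cast this.symm
    rw [h4]
    calc ∑ U ∈ powersetCard s (univ : Finset (Fin n)), (codegree H U : ℝ)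
        ≤ ∑ U ∈ powersetCard s (univ : Finset (Fin n)), (c * n +
            ((if U ∈ heavy s ε H then (1 - c) * n else 0) +
              (if U ∈ gap s c ε H then (1 - c) * n else 0))) := by
          refine sum_le_sum fun U hU => ?_
          have hUc := (mem_powersetCard.mp hU).2
          have a1 : (codegree H U : ℝ) ≤ n := by exact_mod_cast codegree_le H U
          have a2 : 0 ≤ (1 - c) * (n : ℝ) := mul_nonneg (by linarith) hn0.le
          by_cases b1 : U ∈ heavy s ε H
          · rw [if_pos b1]
            split_ifs <;> linarith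
          · by_cases b2 : U ∈ gap s c ε H
            · rw [if_neg b1, if_pos b2]; linarith
            · rw [if_neg b1, if_neg b2]
              have a3 : (codegree H U : ℝ) < (1 - ε) * n := by
                by_contra hc
                push Not at hc
                exact b1 (mem_filter.mpr ⟨mem_univ _, hUc, hc⟩)
              by_contra hc
              push Not at hc
              exact b2 (mem_filter.mpr ⟨mem_univ _, hUc, by linarith, a3⟩)
      _ = _ := by
          rw [sum_add_distrib, sum_add_distrib, sum_const, card_ps, nsmul_eq_mul, sum_ite_mem,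
            inter_eq_right.mpr (heavy_sub s ε H), sum_const, nsmul_eq_mul, sum_ite_mem,
            inter_eq_right.mpr hgsub, sum_const, nsmul_eq_mul]
          ring
  have h4 : ((s + 1 : ℕ) : ℝ) * n.choose (s + 1) = n.choose s * (n * (1 - (s : ℝ) / n)) := by
    have h5 : n.choose (s + 1) * (s + 1) = n.choose s * (n - s) := Nat.choose_succ_right_eq n s
    have h6 : ((n.choose (s + 1) * (s + 1) : ℕ) : ℝ) = ((n.choose s * (n - s) : ℕ) : ℝ) := by
      rw [h5]
    rw [Nat.cast_mul, Nat.cast_mul, Nat.cast_sub (show s ≤ n by omega)] at h6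
    have h7 : (n : ℝ) * (1 - (s : ℝ) / n) = n - s := by field_simp
    rw [h7, mul_comm]
    exact h6
  set θ := 1 - (s : ℝ) / n with hθ
  have hθ0 : 0 < θ := lt_trans (by positivity) h2
  have hθ1 : 1 ≤ (1 + δ / 4) * θ := by
    have : 1 / (1 + δ / 4) * (1 + δ / 4) ≤ θ * (1 + δ / 4) :=
      mul_le_mul_of_nonneg_right h2.le (by positivity)
    rw [div_mul_cancel₀ _ (by positivity)] at this
    linarith
  -- the density
  have h5 : (H.card : ℝ) / n.choose (s + 1) * θ ≤ c + (1 - c) * (h + g) := by
    have e1 : (H.card : ℝ) / n.choose (s + 1) * θ =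
        (((s + 1 : ℕ) : ℝ) * H.card) / (n.choose s * n) := by
      have e2 : (((s + 1 : ℕ) : ℝ) * H.card) / (n.choose s * n) =
          (((s + 1 : ℕ) : ℝ) * H.card) * θ / (((s + 1 : ℕ) : ℝ) * n.choose (s + 1)) := by
        rw [h4]
        field_simp
      rw [e2]
      field_simp
    rw [e1, div_le_iff₀ (by positivity)]
    refine h3.trans (le_of_eq ?_)
    rw [hh, hg]
    field_simp
  have h6 : (H.card : ℝ) / n.choose (s + 1) ≤ (1 + δ / 4) * (c + (1 - c) * (h + g)) := by
    have p4 : (0:ℝ) ≤ (H.card : ℝ) / n.choose (s + 1) := by positivity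
    calc (H.card : ℝ) / n.choose (s + 1) = (H.card : ℝ) / n.choose (s + 1) * 1 := by ring
      _ ≤ (H.card : ℝ) / n.choose (s + 1) * ((1 + δ / 4) * θ) :=
          mul_le_mul_of_nonneg_left hθ1 p4
      _ = (1 + δ / 4) * ((H.card : ℝ) / n.choose (s + 1) * θ) := by ring
      _ ≤ _ := mul_le_mul_of_nonneg_left h5 (by positivity)
  -- `h + g ≤ 1`
  have h7 : h + g ≤ 1 := by
    rw [hh, hg, ← add_div, div_le_one p2]
    have hd : Disjoint (heavy s ε H) (gap s c ε H) := by
      rw [disjoint_left]
      intro U hU1 hU2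
      have a1 := (mem_filter.mp hU1).2.2
      have a2 := (mem_filter.mp hU2).2.2.2
      linarith
    have := card_le_card (union_subset (heavy_sub s ε H) hgsub)
    rw [card_union_of_disjoint hd, card_ps] at this
    exact_mod_cast this
  have h8 : c + (1 - c) * (h + g) ≤ 1 := by nlinarith
  have h9 : (1 + δ / 4) * (c + (1 - c) * (h + g)) ≤ c + (1 - c) * (h + g) + δ / 4 := by nlinarith
  have h10 : (1 - c) * h ≤ (1 - c) * (L s k + δ / 4) :=
    mul_le_mul_of_nonneg_left hh1 (by linarith)
  nlinarith

end Pool.Agent.V11262.TD
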