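import Mathlib

/-!
# Averaging over the subsets of size `m`
-/

set_option autoImplicit false
open Finset
open scoped Classical

namespace Pool.Agent.V11262.TD

/-- the number of the sets of size `m` which contain a given set -/
theorem card_super {n m : ℕ} (S : Finset (Fin n)) (hm : S.card ≤ m) :
    ((powersetCard m (univ : Finset (Fin n))).filter (fun M => S ⊆ M)).card =
      (n - S.card).choose (m - S.card) := by
  have h1 : (powersetCard (m - S.card) (univ \ S : Finset (Fin n))).card =
      (n - S.card).choose (m - S.card) := by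
    rw [card_powersetCard, card_sdiff_of_subset (subset_univ _), card_univ, Fintype.card_fin]
  rw [← h1]
  apply Finset.card_nbij' (fun M => M \ S) (fun M => M ∪ S)
  · intro M hM
    simp only [coe_filter, mem_powersetCard, Set.mem_ofPred_eq] at hM
    simp only [mem_coe, mem_powersetCard]
    refine ⟨sdiff_subset_sdiff (subset_univ _) (Subset.refl _), ?_⟩
    rw [card_sdiff_of_subset hM.2, hM.1.2]
  · intro M hM
    simp only [mem_coe, mem_powersetCard] at hM
    simp only [coe_filter, mem_powersetCard, Set.mem_ofPred_eq]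
    have hd : Disjoint M S := by
      rw [disjoint_left]
      intro x hx
      exact (mem_sdiff.mp (hM.1 hx)).2
    refine ⟨⟨subset_univ _, ?_⟩, subset_union_right⟩
    rw [card_union_of_disjoint hd, hM.2]
    omega
  · intro M hM
    simp only [coe_filter, mem_powersetCard, Set.mem_ofPred_eq] at hM
    exact sdiff_union_of_subset hM.2
  · intro M hM
    simp only [mem_coe, mem_powersetCard] at hM
    have hd : Disjoint M S := by
      rw [disjoint_left]
      intro x hx
      exact (mem_sdiff.mp (hM.1 hx)).2
    exact union_sdiff_cancel_right hd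

/-- double counting -/
theorem sum_sub {n m s : ℕ} (hs : s ≤ m) (G : Finset (Finset (Fin n))) (hG : ∀ U ∈ G, U.card = s) :
    ∑ M ∈ powersetCard m (univ : Finset (Fin n)), (G.filter (fun U => U ⊆ M)).card =
      G.card * (n - s).choose (m - s) := by
  simp only [card_filter]
  rw [sum_comm]
  have h : ∀ U ∈ G, ∑ M ∈ powersetCard m (univ : Finset (Fin n)), (if U ⊆ M then 1 else 0) =
      (n - s).choose (m - s) := by
    intro U hU
    rw [← card_filter, card_super U (by rw [hG U hU]; exact hs), hG U hU]
  rw [sum_congr rfl h, sum_const, smul_eq_mul]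

/-- averaging, with exceptional sets of size `q` -/
theorem avg {n m s q b : ℕ} (hs : s ≤ m) (hq : q ≤ m) (G Bad : Finset (Finset (Fin n)))
    (hG : ∀ U ∈ G, U.card = s) (hB : ∀ K ∈ Bad, K.card = q)
    (h : ∀ M : Finset (Fin n), M.card = m → (∀ K ∈ Bad, ¬ K ⊆ M) →
      (G.filter (fun U => U ⊆ M)).card ≤ b) :
    G.card * (n - s).choose (m - s) ≤
      b * n.choose m + m.choose s * (Bad.card * (n - q).choose (m - q)) := by
  rw [← sum_sub hs G hG, ← sum_sub hq Bad hB, mul_sum]
  have h1 : b * n.choose m = ∑ _M ∈ powersetCard m (univ : Finset (Fin n)), b := by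
    rw [sum_const, card_powersetCard, card_univ, Fintype.card_fin, smul_eq_mul, mul_comm]
  rw [h1, ← sum_add_distrib]
  refine sum_le_sum fun M hM => ?_
  have hMc : M.card = m := (mem_powersetCard.mp hM).2
  by_cases hex : ∃ K ∈ Bad, K ⊆ M
  · obtain ⟨K, hK, hKM⟩ := hex
    have h2 : 1 ≤ (Bad.filter (fun U => U ⊆ M)).card :=
      card_pos.mpr ⟨K, mem_filter.mpr ⟨hK, hKM⟩⟩
    have h3 : (G.filter (fun U => U ⊆ M)).card ≤ m.choose s := by
      rw [← hMc, ← card_powersetCard]
      apply card_le_card
      intro U hU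
      rw [mem_filter] at hU
      rw [mem_powersetCard]
      exact ⟨hU.2, hG U hU.1⟩
    calc _ ≤ m.choose s := h3
      _ ≤ m.choose s * (Bad.filter (fun U => U ⊆ M)).card := Nat.le_mul_of_pos_right _ h2
      _ ≤ _ := Nat.le_add_left _ _
  · push Not at hex
    exact (h M hMc hex).trans (Nat.le_add_right _ _)

/-- averaging, in terms of densities -/
theorem avg_real {n m s q : ℕ} {b : ℝ} (hb : 0 ≤ b) (hs : s ≤ m) (hq : q ≤ m) (hmn : m ≤ n)
    (G Bad : Finset (Finset (Fin n)))
    (hG : ∀ U ∈ G, U.card = s) (hB : ∀ K ∈ Bad, K.card = q)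
    (h : ∀ M : Finset (Fin n), M.card = m → (∀ K ∈ Bad, ¬ K ⊆ M) →
      ((G.filter (fun U => U ⊆ M)).card : ℝ) ≤ b) :
    (G.card : ℝ) / n.choose s ≤
      b / m.choose s + m.choose q * ((Bad.card : ℝ) / n.choose q) := by
  have h1 := avg (b := ⌊b⌋₊) hs hq G Bad hG hB (fun M h2 h3 => Nat.le_floor (h M h2 h3))
  have h2 : (G.card : ℝ) * (n - s).choose (m - s) ≤
      b * n.choose m + m.choose s * (Bad.card * (n - q).choose (m - q)) := by
    have h3 : (⌊b⌋₊ : ℝ) ≤ b := Nat.floor_le hb
    calc (G.card : ℝ) * (n - s).choose (m - s)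
        ≤ (⌊b⌋₊ : ℝ) * n.choose m + m.choose s * (Bad.card * (n - q).choose (m - q)) := by
          exact_mod_cast h1
      _ ≤ _ := by gcongr
  have p1 : (0:ℝ) < n.choose m := by exact_mod_cast Nat.choose_pos hmn
  have p2 : (0:ℝ) < n.choose s := by exact_mod_cast Nat.choose_pos (hs.trans hmn)
  have p3 : (0:ℝ) < n.choose q := by exact_mod_cast Nat.choose_pos (hq.trans hmn)
  have p4 : (0:ℝ) < m.choose s := by exact_mod_cast Nat.choose_pos hs
  have p5 : (0:ℝ) < m.choose q := by exact_mod_cast Nat.choose_pos hq
  have e1 : (n.choose m : ℝ) * m.choose s = n.choose s * (n - s).choose (m - s) := by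
    exact_mod_cast Nat.choose_mul hs
  have e2 : (n.choose m : ℝ) * m.choose q = n.choose q * (n - q).choose (m - q) := by
    exact_mod_cast Nat.choose_mul hq
  have e3 : ((n - s).choose (m - s) : ℝ) = n.choose m * m.choose s / n.choose s := by
    rw [e1]; field_simp
  have e4 : ((n - q).choose (m - q) : ℝ) = n.choose m * m.choose q / n.choose q := by
    rw [e2]; field_simp
  rw [e3, e4] at h2
  have h4 : (G.card : ℝ) / n.choose s * (n.choose m * m.choose s) ≤
      (b / m.choose s + m.choose q * ((Bad.card : ℝ) / n.choose q)) * (n.choose m * m.choose s) := by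
    calc (G.card : ℝ) / n.choose s * (n.choose m * m.choose s)
        = (G.card : ℝ) * (n.choose m * m.choose s / n.choose s) := by ring
      _ ≤ _ := h2
      _ = _ := by
        have e5 : b / m.choose s * ((n.choose m : ℝ) * m.choose s) = b * n.choose m := by
          rw [div_mul_eq_mul_div, ← mul_assoc, mul_div_assoc, div_self p4.ne', mul_one]
        rw [add_mul, e5]
        ring
  exact le_of_mul_le_mul_right h4 (by positivity)

end Pool.Agent.V11262.TD
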