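import Pool.Agent.V11262.TD.Avg

/-!
# Turán systems and sets of large codegree
-/

set_option autoImplicit false
open Finset Filter Topology
open scoped Classical

namespace Pool.Agent.V11262.TD

/-- every subset of `K` with `s + 1` elements contains a member of `G` -/
def Sys {n : ℕ} (s : ℕ) (G : Finset (Finset (Fin n))) (K : Finset (Fin n)) : Prop :=
  ∀ T ⊆ K, T.card = s + 1 → ∃ U ∈ G, U ⊆ T

/-- `G` consists of sets with `s` elements, and no set of `k` elements is a Turán system -/
def SysFree {n : ℕ} (s k : ℕ) (G : Finset (Finset (Fin n))) : Prop :=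
  (∀ U ∈ G, U.card = s) ∧ ∀ K : Finset (Fin n), K.card = k → ¬ Sys s G K

/-- the largest size of such a family -/
noncomputable def ex (s k n : ℕ) : ℕ :=
  (univ.filter fun G : Finset (Finset (Fin n)) => SysFree s k G).sup card

theorem le_ex {s k n : ℕ} {G : Finset (Finset (Fin n))} (h : SysFree s k G) :
    G.card ≤ ex s k n :=
  Finset.le_sup (f := card) (mem_filter.mpr ⟨mem_univ _, h⟩)

theorem sysFree_empty {s k n : ℕ} (hk : s + 1 ≤ k) : SysFree s k (∅ : Finset (Finset (Fin n))) := by
  refine ⟨fun U hU => absurd hU (notMem_empty _), fun K hK h => ?_⟩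
  obtain ⟨T, hT, hT2⟩ := exists_subset_card_eq (show s + 1 ≤ K.card by omega)
  obtain ⟨U, hU, -⟩ := h T hT hT2
  exact absurd hU (notMem_empty _)

theorem exists_ex {s k n : ℕ} (hk : s + 1 ≤ k) :
    ∃ G : Finset (Finset (Fin n)), SysFree s k G ∧ G.card = ex s k n := by
  have hne : (univ.filter fun G : Finset (Finset (Fin n)) => SysFree s k G).Nonempty :=
    ⟨∅, mem_filter.mpr ⟨mem_univ _, sysFree_empty hk⟩⟩
  obtain ⟨G, hG, h⟩ := Finset.exists_mem_eq_sup _ hne card
  exact ⟨G, (mem_filter.mp hG).2, h.symm⟩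

/-- restriction to a subset of size `m` without Turán systems -/
theorem restrict {s k n m : ℕ} (G : Finset (Finset (Fin n))) (hG : ∀ U ∈ G, U.card = s)
    (M : Finset (Fin n)) (hM : M.card = m)
    (h : ∀ K : Finset (Fin n), K.card = k → Sys s G K → ¬ K ⊆ M) :
    (G.filter (fun U => U ⊆ M)).card ≤ ex s k m := by
  set e : Fin m ↪ Fin n := (M.orderEmbOfFin hM).toEmbedding with he
  have hMe : (univ : Finset (Fin m)).map e = M := by
    rw [he]
    exact Finset.map_orderEmbOfFin_univ M hM
  set G' : Finset (Finset (Fin m)) := univ.filter fun U => U.map e ∈ G with hG'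
  have hfree : SysFree s k G' := by
    refine ⟨fun U hU => ?_, fun K hK hS => ?_⟩
    · have := hG _ (mem_filter.mp hU).2
      rwa [card_map] at this
    · apply h (K.map e) (by rw [card_map, hK])
      · intro T hT hTc
        obtain ⟨T', hT', rfl⟩ := Finset.subset_map_iff.mp hT
        rw [card_map] at hTc
        obtain ⟨U, hU, hUT⟩ := hS T' hT' hTc
        exact ⟨U.map e, (mem_filter.mp hU).2, map_subset_map.mpr hUT⟩
      · rw [← hMe]
        exact map_subset_map.mpr (subset_univ _)
  refine le_trans ?_ (le_ex hfree)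
  rw [← card_map (Finset.mapEmbedding e).toEmbedding (s := G')]
  apply card_le_card
  intro U hU
  rw [mem_filter] at hU
  rw [← hMe] at hU
  obtain ⟨U', -, rfl⟩ := Finset.subset_map_iff.mp hU.2
  rw [Finset.mem_map]
  exact ⟨U', mem_filter.mpr ⟨mem_univ _, hU.1⟩, rfl⟩

/-- the basic inequality -/
theorem basic {s k n m : ℕ} (hs : s ≤ m) (hk : k ≤ m) (hmn : m ≤ n)
    (G : Finset (Finset (Fin n))) (hG : ∀ U ∈ G, U.card = s) :
    (G.card : ℝ) / n.choose s ≤ (ex s k m : ℝ) / m.choose s +
      m.choose k * (((univ.filter fun K : Finset (Fin n) => K.card = k ∧ Sys s G K).card : ℝ) /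
        n.choose k) := by
  apply avg_real (by positivity) hs hk hmn G _ hG
  · intro K hK
    exact (mem_filter.mp hK).2.1
  · intro M hM h
    exact_mod_cast restrict G hG M hM fun K hK hS hKM =>
      h K (mem_filter.mpr ⟨mem_univ _, hK, hS⟩) hKM

/-- the densities decrease -/
theorem ratio_anti {s k n m : ℕ} (hsk : s + 1 ≤ k) (hk : k ≤ m) (hmn : m ≤ n) :
    (ex s k n : ℝ) / n.choose s ≤ (ex s k m : ℝ) / m.choose s := by
  obtain ⟨G, hG, hGc⟩ := exists_ex (n := n) hsk
  have h := basic (k := k) (show s ≤ m by omega) hk hmn G hG.1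
  have h0 : (univ.filter fun K : Finset (Fin n) => K.card = k ∧ Sys s G K) = ∅ := by
    rw [filter_eq_empty_iff]
    rintro K - ⟨hK, hS⟩
    exact hG.2 K hK hS
  rw [h0, hGc] at h
  simpa using h

/-- the Turán density of the Turán systems -/
noncomputable def L (s k : ℕ) : ℝ := ⨅ j : ℕ, (ex s k (k + j) : ℝ) / (k + j).choose s

theorem L_bdd (s k : ℕ) :
    BddBelow (Set.range fun j : ℕ => (ex s k (k + j) : ℝ) / (k + j).choose s) :=
  ⟨0, by rintro _ ⟨j, rfl⟩; positivity⟩

theorem L_le {s k n : ℕ} (hk : k ≤ n) : L s k ≤ (ex s k n : ℝ) / n.choose s := by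
  obtain ⟨j, rfl⟩ := Nat.exists_eq_add_of_le hk
  exact ciInf_le (L_bdd s k) j

theorem L_nonneg (s k : ℕ) : 0 ≤ L s k := le_ciInf fun j => by positivity

theorem L_lim {s k : ℕ} (hsk : s + 1 ≤ k) :
    Tendsto (fun n : ℕ => (ex s k n : ℝ) / n.choose s) atTop (𝓝 (L s k)) := by
  have h : Antitone fun j : ℕ => (ex s k (k + j) : ℝ) / (k + j).choose s := by
    intro i j hij
    exact ratio_anti hsk (by omega) (by omega)
  have h2 := tendsto_atTop_ciInf h (L_bdd s k)
  have h3 : Tendsto (fun j : ℕ => (ex s k (j + k) : ℝ) / (j + k).choose s) atTop (𝓝 (L s k)) := by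
    refine h2.congr fun j => ?_
    rw [add_comm]
  exact (tendsto_add_atTop_iff_nat k).mp h3

theorem exists_m {s k : ℕ} (hsk : s + 1 ≤ k) {δ : ℝ} (hδ : 0 < δ) :
    ∃ m, k ≤ m ∧ (ex s k m : ℝ) / m.choose s < L s k + δ := by
  have h := (L_lim hsk).eventually (gt_mem_nhds (show L s k < L s k + δ by linarith))
  obtain ⟨m, hm, hm2⟩ := (h.and (eventually_ge_atTop k)).exists
  exact ⟨m, hm2, hm⟩

/-- `H` contains no complete `r`-graph on `k` vertices -/
def CliqueFree {n : ℕ} (r k : ℕ) (H : Finset (Finset (Fin n))) : Prop :=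
  (∀ e ∈ H, e.card = r) ∧ ∀ K : Finset (Fin n), K.card = k → ∃ T ⊆ K, T.card = r ∧ T ∉ H

/-- the codegree -/
noncomputable def codegree {n : ℕ} (H : Finset (Finset (Fin n))) (U : Finset (Fin n)) : ℕ :=
  (univ.filter fun v => insert v U ∈ H).card

/-- the sets with `s` elements of codegree at least `(1 - ε) n` -/
noncomputable def heavy {n : ℕ} (s : ℕ) (ε : ℝ) (H : Finset (Finset (Fin n))) :
    Finset (Finset (Fin n)) :=
  univ.filter fun U => U.card = s ∧ (1 - ε) * (n : ℝ) ≤ (codegree H U : ℝ)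

/-- few Turán systems of heavy sets -/
theorem few_sys {s k n : ℕ} (hsk : s + 1 ≤ k) (hkn : k ≤ n) (hn : 2 * s ≤ n) {ε : ℝ} (hε : 0 ≤ ε)
    {H : Finset (Finset (Fin n))} (hH : CliqueFree (s + 1) k H) :
    ((univ.filter fun K : Finset (Fin n) => K.card = k ∧ Sys s (heavy s ε H) K).card : ℝ) /
      n.choose k ≤ 2 * ε * ((k - s : ℕ) * k.choose s) := by
  set G := heavy s ε H with hG
  set Bad := univ.filter fun K : Finset (Fin n) => K.card = k ∧ Sys s G K with hBad
  have hGs : ∀ U ∈ G, U.card = s := fun U hU => (mem_filter.mp hU).2.1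
  -- the pairs `(U, v)`
  let P : Finset (Finset (Fin n) × Fin n) :=
    G.sigma (fun U => univ.filter fun v => insert v U ∉ H) |>.map
      (Equiv.sigmaEquivProd _ _).toEmbedding
  have hP : ∀ q : Finset (Fin n) × Fin n, q ∈ P ↔ q.1 ∈ G ∧ insert q.2 q.1 ∉ H := by
    rintro ⟨U, v⟩
    simp only [P, Finset.mem_map, mem_sigma, mem_filter, mem_univ, true_and, Equiv.coe_toEmbedding,
      Equiv.sigmaEquivProd_apply, Sigma.exists, Prod.mk.injEq]
    constructor
    · rintro ⟨U', v', ⟨h1, h2⟩, rfl, rfl⟩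
      exact ⟨h1, h2⟩
    · rintro ⟨h1, h2⟩
      exact ⟨U, v, ⟨h1, h2⟩, rfl, rfl⟩
  have hPcard : (P.card : ℝ) ≤ n.choose s * (ε * n) := by
    rw [card_map, card_sigma]
    push_cast
    calc ∑ U ∈ G, ((univ.filter fun v => insert v U ∉ H).card : ℝ)
        ≤ ∑ U ∈ G, ε * n := by
          refine sum_le_sum fun U hU => ?_
          have h1 := (mem_filter.mp hU).2.2
          have h2 := card_filter_add_card_filter_not (s := (univ : Finset (Fin n)))
            (fun v => insert v U ∈ H)
          rw [card_univ, Fintype.card_fin] at h2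
          have h3 : (codegree H U : ℝ) + ((univ.filter fun v => insert v U ∉ H).card : ℝ) = n := by
            unfold codegree
            exact_mod_cast h2
          linarith
      _ = G.card * (ε * n) := by rw [sum_const, nsmul_eq_mul]
      _ ≤ _ := by
          apply mul_le_mul_of_nonneg_right _ (by positivity)
          have : G.card ≤ n.choose s := by
            have h1 : G ⊆ powersetCard s univ := fun U hU =>
              mem_powersetCard.mpr ⟨subset_univ _, hGs U hU⟩
            calc G.card ≤ (powersetCard s (univ : Finset (Fin n))).card := card_le_card h1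
              _ = _ := by rw [card_powersetCard, card_univ, Fintype.card_fin]
          exact_mod_cast this
  -- every bad set contains such a pair
  have hcov : Bad ⊆ P.biUnion fun q =>
      if q.2 ∈ q.1 then ∅ else
        (powersetCard k (univ : Finset (Fin n))).filter (fun M => insert q.2 q.1 ⊆ M) := by
    intro K hK
    obtain ⟨-, hKc, hS⟩ := mem_filter.mp hK
    obtain ⟨T, hT, hTc, hTH⟩ := hH.2 K hKc
    obtain ⟨U, hU, hUT⟩ := hS T hT hTc
    obtain ⟨v, hvT, hvU⟩ : ∃ v ∈ T, v ∉ U := by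
      by_contra hc
      push Not at hc
      have h1 := card_le_card (fun v hv => hc v hv : T ⊆ U)
      rw [hTc, hGs U hU] at h1
      omega
    have hTU : insert v U = T := by
      apply eq_of_subset_of_card_le (insert_subset hvT hUT)
      rw [card_insert_of_notMem hvU, hTc, hGs U hU]
    rw [mem_biUnion]
    refine ⟨(U, v), (hP _).mpr ⟨hU, by simp only [hTU]; exact hTH⟩, ?_⟩
    simp only [hvU, if_false, mem_filter, mem_powersetCard]
    refine ⟨⟨subset_univ _, hKc⟩, ?_⟩
    rw [hTU]
    exact hT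
  have hBadc : (Bad.card : ℝ) ≤ n.choose s * (ε * n) * (n - (s + 1)).choose (k - (s + 1)) := by
    have h1 : Bad.card ≤ ∑ q ∈ P, (n - (s + 1)).choose (k - (s + 1)) := by
      refine (card_le_card hcov).trans (card_biUnion_le.trans (sum_le_sum fun q hq => ?_))
      split_ifs with h2
      · simp
      · have h3 : (insert q.2 q.1).card = s + 1 := by
          rw [card_insert_of_notMem h2, hGs _ ((hP q).mp hq).1]
        rw [card_super _ (by rw [h3]; exact hsk), h3]
    rw [sum_const, smul_eq_mul] at h1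
    calc (Bad.card : ℝ) ≤ (P.card : ℝ) * (n - (s + 1)).choose (k - (s + 1)) := by exact_mod_cast h1
      _ ≤ _ := mul_le_mul_of_nonneg_right hPcard (by positivity)
  -- arithmetic
  have p3 : (0:ℝ) < n.choose k := by exact_mod_cast Nat.choose_pos hkn
  rw [div_le_iff₀ p3]
  refine hBadc.trans ?_
  have e1 : (n.choose k : ℝ) * k.choose s = n.choose s * (n - s).choose (k - s) := by
    exact_mod_cast Nat.choose_mul (show s ≤ k by omega)
  have e2 : ((n - s : ℕ) : ℝ) * (n - (s + 1)).choose (k - (s + 1)) =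
      ((n - s).choose (k - s) : ℝ) * (k - s : ℕ) := by
    obtain ⟨a, ha⟩ : ∃ a, n - s = a + 1 := ⟨n - s - 1, by omega⟩
    obtain ⟨c, hc⟩ : ∃ c, k - s = c + 1 := ⟨k - s - 1, by omega⟩
    have h1 : n - (s + 1) = a := by omega
    have h2 : k - (s + 1) = c := by omega
    rw [ha, hc, h1, h2]
    exact_mod_cast Nat.add_one_mul_choose_eq a c
  have e3 : (n : ℝ) ≤ 2 * ((n - s : ℕ) : ℝ) := by
    rw [Nat.cast_sub (by omega)]
    have : (2 * s : ℝ) ≤ n := by exact_mod_cast hn
    linarith
  calc (n.choose s : ℝ) * (ε * n) * (n - (s + 1)).choose (k - (s + 1))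
      ≤ (n.choose s : ℝ) * (ε * (2 * ((n - s : ℕ) : ℝ))) * (n - (s + 1)).choose (k - (s + 1)) := by
        gcongr
    _ = 2 * ε * (n.choose s * (((n - s : ℕ) : ℝ) * (n - (s + 1)).choose (k - (s + 1)))) := by ring
    _ = 2 * ε * ((k - s : ℕ) * (n.choose s * (n - s).choose (k - s))) := by rw [e2]; ring
    _ = 2 * ε * ((k - s : ℕ) * k.choose s) * n.choose k := by rw [← e1]; ring

/-- **upper bound for the number of the heavy sets** -/
theorem heavy_upper {s k : ℕ} (hsk : s + 1 ≤ k) {δ : ℝ} (hδ : 0 < δ) :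
    ∃ ε : ℝ, 0 < ε ∧ ε < 1 ∧ ∃ N : ℕ, ∀ n : ℕ, N ≤ n → ∀ H : Finset (Finset (Fin n)),
      CliqueFree (s + 1) k H → ((heavy s ε H).card : ℝ) ≤ (L s k + δ) * n.choose s := by
  obtain ⟨m, hkm, hm⟩ := exists_m hsk (half_pos hδ)
  set C : ℝ := m.choose k * (2 * ((k - s : ℕ) * k.choose s)) + 1 with hC
  have hC0 : 0 < C := by positivity
  refine ⟨min (δ / 2 / C) (1 / 2), by positivity, (min_le_right _ _).trans_lt (by norm_num),
    max m (2 * s), fun n hn H hH => ?_⟩
  set ε := min (δ / 2 / C) (1 / 2) with hε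
  have hε0 : 0 ≤ ε := by positivity
  have hmn : m ≤ n := (le_max_left _ _).trans hn
  have hG : ∀ U ∈ heavy s ε H, U.card = s := fun U hU => (mem_filter.mp hU).2.1
  have h1 := basic (k := k) (show s ≤ m by omega) hkm hmn _ hG
  have h2 := few_sys hsk (hkm.trans hmn) ((le_max_right _ _).trans hn) hε0 hH
  have p2 : (0:ℝ) < n.choose s := by exact_mod_cast Nat.choose_pos (show s ≤ n by omega)
  have h3 : ((heavy s ε H).card : ℝ) / n.choose s ≤ L s k + δ := by
    refine h1.trans ?_
    have h4 : (m.choose k : ℝ) * (((univ.filter fun K : Finset (Fin n) =>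
        K.card = k ∧ Sys s (heavy s ε H) K).card : ℝ) / n.choose k) ≤ δ / 2 := by
      calc _ ≤ (m.choose k : ℝ) * (2 * ε * ((k - s : ℕ) * k.choose s)) := by gcongr
        _ = (C - 1) * ε := by rw [hC]; ring
        _ ≤ C * ε := by linarith
        _ ≤ C * (δ / 2 / C) := by
            apply mul_le_mul_of_nonneg_left (min_le_left _ _) hC0.le
        _ = δ / 2 := by field_simp
    linarith
  rwa [div_le_iff₀ p2] at h3

/-- **lower bound**: the family of all sets which contain a member of `G` -/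
theorem heavy_lower {s k n : ℕ} (hsk : s + 1 ≤ k) :
    ∃ H : Finset (Finset (Fin n)), CliqueFree (s + 1) k H ∧
      ∃ G : Finset (Finset (Fin n)), (∀ U ∈ G, U.card = s ∧ n - s ≤ codegree H U) ∧
        G.card = ex s k n := by
  obtain ⟨G, hG, hGc⟩ := exists_ex (s := s) (k := k) (n := n) hsk
  refine ⟨univ.filter fun T => T.card = s + 1 ∧ ∃ U ∈ G, U ⊆ T, ⟨fun e he =>
    (mem_filter.mp he).2.1, fun K hK => ?_⟩, G, fun U hU => ⟨hG.1 U hU, ?_⟩, hGc⟩
  · have h := hG.2 K hK
    unfold Sys at h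
    push Not at h
    obtain ⟨T, hT, hTc, hTU⟩ := h
    refine ⟨T, hT, hTc, fun hTH => ?_⟩
    obtain ⟨-, -, U, hU, hUT⟩ := mem_filter.mp hTH
    exact hTU U hU hUT
  · unfold codegree
    have h1 : (univ \ U : Finset (Fin n)).card = n - s := by
      rw [card_sdiff_of_subset (subset_univ _), card_univ, Fintype.card_fin, hG.1 U hU]
    rw [← h1]
    apply card_le_card
    intro v hv
    rw [mem_filter]
    refine ⟨mem_univ _, mem_filter.mpr ⟨mem_univ _, ?_, U, hU, subset_insert _ _⟩⟩
    rw [card_insert_of_notMem (mem_sdiff.mp hv).2, hG.1 U hU]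

end Pool.Agent.V11262.TD
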